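import Pool.Agent.U231.LP.Defs
import Pool.Agent.TH125.Gal.Tate

/-!
# Cyclic coverings of large prime degree: weight operators
-/

set_option autoImplicit false

open CategoryTheory AlgebraicGeometry Function

universe u

namespace Pool.Agent.U231.LP

open Pool.Agent.Y95.ZT.S

section Rep

variable {K : Type} [Field K] {Γ : Type} [Group Γ]

/-- linear maps equivariant under a subgroup of finite index -/
theorem pot_comm (D : WeightData K Γ) {M M' : Rp K Γ} (f : M.V →ₗ[K] M'.V) {Δ : Subgroup Γ}
    (hΔ : Δ.FiniteIndex) (hf : ∀ g ∈ Δ, ∀ x, f (M.act g x) = M'.act g (f x)) (x : M.V) :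
    f (D.Θ M x) = D.Θ M' (f x) := by
  let h : MultilinearMap K (fun _ : Unit => M.V) M'.V :=
    { toFun := fun v => f (v ())
      map_update_add' := by
        intro _ v i x y
        cases i
        simp
      map_update_smul' := by
        intro _ v i q x
        cases i
        simp }
  have h1 := D.der Unit (fun _ => M) M' h ⟨Δ, hΔ, fun g hg v => hf g hg (v ())⟩ (fun _ => x)
  rw [Fintype.sum_unique] at h1
  refine Eq.trans ?_ h1
  change _ = f (update (fun _ => x) (default : Unit) (D.Θ M x) ())
  rw [show (() : Unit) = default from rfl, update_self]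

/-- bilinear equivariant maps -/
theorem bil_comm (D : WeightData K Γ) {M₁ M₂ M' : Rp K Γ} (B : M₁.V →ₗ[K] M₂.V →ₗ[K] M'.V)
    (hB : ∀ g x y, B (M₁.act g x) (M₂.act g y) = M'.act g (B x y)) (x : M₁.V) (y : M₂.V) :
    B (D.Θ M₁ x) y + B x (D.Θ M₂ y) = D.Θ M' (B x y) := by
  let M : Bool → Rp K Γ := fun b => cond b M₁ M₂
  let h : MultilinearMap K (fun b : Bool => (M b).V) M'.V :=
    { toFun := fun v => B (v true) (v false)
      map_update_add' := by
        intro _ v i x y
        cases i
        · change B (update v false (x + y) true) (update v false (x + y) false) =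
            B (update v false x true) (update v false x false) +
              B (update v false y true) (update v false y false)
          rw [update_self, update_self, update_self, update_of_ne (by intro h; cases h),
            update_of_ne (by intro h; cases h), update_of_ne (by intro h; cases h)]
          exact map_add _ _ _
        · change B (update v true (x + y) true) (update v true (x + y) false) =
            B (update v true x true) (update v true x false) +
              B (update v true y true) (update v true y false)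
          rw [update_self, update_self, update_self, update_of_ne (by intro h; cases h),
            update_of_ne (by intro h; cases h), update_of_ne (by intro h; cases h)]
          exact LinearMap.map_add₂ _ _ _ _
      map_update_smul' := by
        intro _ v i q x
        cases i
        · change B (update v false (q • x) true) (update v false (q • x) false) =
            q • B (update v false x true) (update v false x false)
          rw [update_self, update_self, update_of_ne (by intro h; cases h), update_of_ne (by intro h; cases h)]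
          exact map_smul _ _ _
        · change B (update v true (q • x) true) (update v true (q • x) false) =
            q • B (update v true x true) (update v true x false)
          rw [update_self, update_self, update_of_ne (by intro h; cases h), update_of_ne (by intro h; cases h)]
          exact LinearMap.map_smul₂ _ _ _ _ }
  let v : ∀ b : Bool, (M b).V := fun b => Bool.rec (motive := fun b => (M b).V) y x b
  have h1 := D.der Bool M M' h ⟨⊤, inferInstance, fun g _ v => hB g (v true) (v false)⟩ v
  rw [Fintype.sum_bool] at h1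
  exact h1

end Rep

open Pool.Agent.H914 Pool.Agent.H914.VarClass Pool.Agent.H914.VarClass.Obj
  Pool.Agent.H914.WeilCohomology Pool.Agent.H281R3.HT Pool.Agent.TH125.Gal

variable {k : Type u} [Field k] {𝒱 : VarClass k} {ops : CycleOps 𝒱}
  {W : WeilCohomology.{u, 0} ops} {Γ : Type} [Group Γ]

/-- the cohomology as a representation -/
abbrev rep (Y : GVar W Γ) : Rp W.K Γ := algRep Y.act

/-- the powers of the character -/
abbrev chiRep (D : WeightData W.K Γ) (j : ℕ) : Rp W.K Γ := chi (D.χ ^ j)

/-- The weight of the power `χ ^ j`. -/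
def theta (D : WeightData W.K Γ) (j : ℕ) : W.K := D.Θ (chiRep D j) (1 : W.K)

theorem theta_add (D : WeightData W.K Γ) (i j : ℕ) :
    theta D (i + j) = theta D i + theta D j := by
  have h1 : (LinearMap.mul W.K W.K) (theta D i) (1 : W.K) +
      (LinearMap.mul W.K W.K) (1 : W.K) (theta D j) =
      D.Θ (chiRep D (i + j)) ((LinearMap.mul W.K W.K) (1 : W.K) (1 : W.K)) :=
    bil_comm D (M₁ := chiRep D i) (M₂ := chiRep D j) (M' := chiRep D (i + j))
      (LinearMap.mul W.K W.K) (fun (g : Γ) (x y : W.K) => by
        change ((D.χ g : W.K) ^ i * x) * ((D.χ g : W.K) ^ j * y) =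
          (D.χ g : W.K) ^ (i + j) * (x * y)
        ring) (1 : W.K) (1 : W.K)
  have e : (LinearMap.mul W.K W.K) (1 : W.K) (1 : W.K) = (1 : W.K) := mul_one _
  have e1 : (LinearMap.mul W.K W.K) (theta D i) (1 : W.K) = theta D i := mul_one _
  have e2 : (LinearMap.mul W.K W.K) (1 : W.K) (theta D j) = theta D j := one_mul _
  rw [e1, e2] at h1
  refine Eq.trans ?_ h1.symm
  exact congrArg (fun x : W.K => D.Θ (chiRep D (i + j)) x) e.symm

/-- the weights of the powers of the character -/
theorem theta_eq (D : WeightData W.K Γ) (h : IsNormalized D) (j : ℕ) : theta D j = j := by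
  induction j with
  | zero =>
    have h1 := theta_add D 0 0
    rw [add_zero] at h1
    rw [Nat.cast_zero]
    exact (add_eq_left.1 h1.symm)
  | succ j ih =>
    have h1 : theta D 1 = 1 := by
      have key : ∀ χ' : Γ →* W.Kˣ, χ' = D.χ → D.Θ (chi χ') (1 : W.K) = (1 : W.K) := by
        rintro _ rfl
        exact h
      exact key (D.χ ^ 1) (MonoidHom.ext fun g => pow_one (D.χ g))
    rw [theta_add, ih, h1, Nat.cast_succ]

/-- the weight operator on Tate classes -/
theorem weight_tate (D : WeightData W.K Γ) (Y : GVar W Γ) (j : ℕ) {c : W.H Y.X}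
    (hc : ∃ Δ : Subgroup Γ, Δ.FiniteIndex ∧ ∀ g ∈ Δ, Y.act g c = (D.χ g : W.K) ^ j • c) :
    weight D Y c = theta D j • c := by
  obtain ⟨Δ, hΔ, hc⟩ := hc
  let f : (chiRep D j).V →ₗ[W.K] (rep Y).V := LinearMap.toSpanSingleton W.K (W.H Y.X) c
  have h1 := pot_comm D (M := chiRep D j) (M' := rep Y) f hΔ (fun g hg (x : W.K) => by
    change ((D.χ g : W.K) ^ j • x) • c = Y.act g (x • c)
    rw [map_smul, hc g hg, smul_smul, smul_eq_mul, mul_comm]) (1 : W.K)
  change theta D j • c = weight D Y ((1 : W.K) • c) at h1
  rw [one_smul] at h1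
  exact h1.symm

/-- the weight operator on external products -/
theorem weight_ext (D : WeightData W.K Γ) {X Y : GVar W Γ}
    {υ : Γ →* (W.H (X.X.prod Y.X) ≃ₐ[W.K] W.H (X.X.prod Y.X))}
    (h1 : Intertwines (W.map (fst X.X Y.X)) X.act υ)
    (h2 : Intertwines (W.map (snd X.X Y.X)) Y.act υ) (x : W.H X.X) (y : W.H Y.X) :
    weight D ⟨X.X.prod Y.X, υ⟩ (W.map (fst X.X Y.X) x * W.map (snd X.X Y.X) y) =
      W.map (fst X.X Y.X) (weight D X x) * W.map (snd X.X Y.X) y +
        W.map (fst X.X Y.X) x * W.map (snd X.X Y.X) (weight D Y y) := by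
  let B : (rep X).V →ₗ[W.K] (rep Y).V →ₗ[W.K] (rep (⟨X.X.prod Y.X, υ⟩ : GVar W Γ)).V :=
    (LinearMap.mul W.K (W.H (X.X.prod Y.X))).compl₁₂ (W.map (fst X.X Y.X)).toLinearMap
      (W.map (snd X.X Y.X)).toLinearMap
  exact (bil_comm D (M₁ := rep X) (M₂ := rep Y) (M' := rep (⟨X.X.prod Y.X, υ⟩ : GVar W Γ)) B
    (fun g x y => by
      change W.map (fst X.X Y.X) (X.act g x) * W.map (snd X.X Y.X) (Y.act g y) =
        υ g (W.map (fst X.X Y.X) x * W.map (snd X.X Y.X) y)
      rw [map_mul (υ g), h1 g x, h2 g y]) x y).symm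

/-- the weight operator and contractions -/
theorem ctr_weight (D : WeightData W.K Γ) {X Y : GVar W Γ}
    {υ : Γ →* (W.H (X.X.prod Y.X) ≃ₐ[W.K] W.H (X.X.prod Y.X))}
    (h1 : Intertwines (W.map (fst X.X Y.X)) X.act υ)
    (h2 : Intertwines (W.map (snd X.X Y.X)) Y.act υ) {f : W.H X.X →ₗ[W.K] W.K} {lam : W.K}
    (hf : ∀ x, f (weight D X x) = lam * f x) (y : W.H (X.X.prod Y.X)) :
    weight D Y (ctr f y) = ctr f (weight D ⟨X.X.prod Y.X, υ⟩ y) - lam • ctr f y := by
  refine kun_ext (L := fun y => weight D Y (ctr f y))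
    (L' := fun y => ctr f (weight D ⟨X.X.prod Y.X, υ⟩ y) - lam • ctr f y) ?_ ?_ ?_ y
  · intro a b
    simp only [map_add]
  · intro a b
    rw [map_add, map_add, map_add, smul_add]
    abel
  · intro a z
    change weight D Y (ctr f _) = ctr f (weight D ⟨X.X.prod Y.X, υ⟩ _) - lam • ctr f _
    rw [weight_ext D h1 h2, map_add, ctr_apply, ctr_apply, ctr_apply, hf, map_smul, smul_smul]
    abel

/-- the weight operator and contractions, general form -/
theorem ctr_weight' (D : WeightData W.K Γ) {X Y : GVar W Γ}
    {υ : Γ →* (W.H (X.X.prod Y.X) ≃ₐ[W.K] W.H (X.X.prod Y.X))}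
    (h1 : Intertwines (W.map (fst X.X Y.X)) X.act υ)
    (h2 : Intertwines (W.map (snd X.X Y.X)) Y.act υ) (f : W.H X.X →ₗ[W.K] W.K)
    (y : W.H (X.X.prod Y.X)) :
    weight D Y (ctr f y) = ctr f (weight D ⟨X.X.prod Y.X, υ⟩ y) - ctr (f ∘ₗ weight D X) y := by
  refine kun_ext (L := fun y => weight D Y (ctr f y))
    (L' := fun y => ctr f (weight D ⟨X.X.prod Y.X, υ⟩ y) - ctr (f ∘ₗ weight D X) y) ?_ ?_ ?_ y
  · intro a b
    simp only [map_add]
  · intro a b
    simp only [map_add]
    abel
  · intro a z
    dsimp only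
    rw [weight_ext D h1 h2, map_add, ctr_apply, ctr_apply, ctr_apply, ctr_apply, map_smul,
      LinearMap.comp_apply]
    abel

/-- the action and contractions -/
theorem ctr_act {X Y : GVar W Γ}
    {υ : Γ →* (W.H (X.X.prod Y.X) ≃ₐ[W.K] W.H (X.X.prod Y.X))}
    (h1 : Intertwines (W.map (fst X.X Y.X)) X.act υ)
    (h2 : Intertwines (W.map (snd X.X Y.X)) Y.act υ) (f : W.H X.X →ₗ[W.K] W.K) (g : Γ)
    (y : W.H (X.X.prod Y.X)) :
    ctr f (υ g y) = Y.act g (ctr (f ∘ₗ (X.act g).toLinearMap) y) := by
  refine kun_ext (L := fun y => ctr f (υ g y))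
    (L' := fun y => Y.act g (ctr (f ∘ₗ (X.act g).toLinearMap) y)) ?_ ?_ ?_ y
  · intro a b
    simp only [map_add]
  · intro a b
    simp only [map_add]
  · intro a z
    change ctr f (υ g _) = Y.act g (ctr (f ∘ₗ (X.act g).toLinearMap) _)
    rw [map_mul (υ g), h1, h2, ctr_apply, ctr_apply, map_smul]
    rfl

/-- degrees and contractions -/
theorem ctr_gr {A Z : 𝒱.Obj} {f : W.H A →ₗ[W.K] W.K} {d : ℕ}
    (hf : ∀ i, i ≠ d → ∀ x ∈ W.gr A i, f x = 0) {w : ℕ} {y : W.H (A.prod Z)}
    (hy : y ∈ W.gr (A.prod Z) w) : ctr f y ∈ grZ (W.gr Z) ((w : ℤ) - d) := by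
  have key : ∀ y : W.H (A.prod Z), ctr f (proj (W.isInternal (A.prod Z)) w y) ∈
      grZ (W.gr Z) ((w : ℤ) - d) := by
    intro y
    refine W.kunneth_induction (p := fun y => ctr f (proj (W.isInternal (A.prod Z)) w y) ∈
      grZ (W.gr Z) ((w : ℤ) - d)) ?_ ?_ y
    · intro a b ha hb
      rw [map_add, map_add]
      exact Submodule.add_mem _ ha hb
    · intro i j a ha b hb
      rw [proj_ext ha]
      split_ifs with h
      · rw [ctr_apply]
        by_cases hi : i = d
        · subst hi
          apply Submodule.smul_mem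
          rw [show (w : ℤ) - i = ((w - i : ℕ) : ℤ) by omega, grZ_natCast]
          exact proj_mem _ _ _
        · rw [hf i hi a ha, zero_smul]
          exact Submodule.zero_mem _
      · rw [map_zero]
        exact Submodule.zero_mem _
  have h1 := key y
  rwa [proj_same _ hy] at h1

end Pool.Agent.U231.LP
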