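import Pool.Agent.U231.LP.Twr

/-!
# Cyclic coverings of large prime degree: the theorem
-/

set_option autoImplicit false

open CategoryTheory AlgebraicGeometry Finset

universe u

namespace Pool.Agent.U231.LP

open Pool.Agent.Y95.ZT.S Pool.Agent.H914 Pool.Agent.H914.VarClass Pool.Agent.H914.VarClass.Obj
  Pool.Agent.H914.WeilCohomology Pool.Agent.H281R3.HT Pool.Agent.TH125.Gal

variable {k : Type u} [Field k] {𝒱 : VarClass k} {ops : CycleOps 𝒱}
  {W : WeilCohomology.{u, 0} ops} {Γ : Type} [Group Γ] {D : WeightData W.K Γ}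
  {ι : Type} {N A : ι → ℕ} {X : ι → GVar W Γ} {Z : GVar W Γ}

theorem IsCyclicCover.exists_data {N A : ℕ} {c : Γ →* (ZMod N)ˣ} {X : GVar W Γ}
    (h : IsCyclicCover D N A c X) (hN : N.Prime) : Nonempty (CData D N A c X) := by
  obtain ⟨σ, ζ, h1, h2, h3, h4, h5, h6⟩ := h.cover
  refine ⟨⟨σ, ζ, h1, h2, h3, h4, h5, fun j hj hj' x hx => ?_, hN, h.galois⟩⟩
  obtain ⟨h7, h8⟩ := h6 j hj hj' x hx
  rw [Nat.cast_zero, zero_smul] at h8
  exact ⟨h7, h8⟩

/-- **All Tate classes on towers are combinations of external products.** -/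
theorem tate_span (hD : IsNormalized D) (hX : IsCoverFamily D N A X) (hZ : GaloisType D Z)
    {B ν : ℕ} (hν : 0 < ν) (hd : ∀ i, ν ≤ (X i).X.dim)
    (hB : ∀ b e, ν ≤ e → hodgeNumber D Z b e ≤ B) (hN : ∀ i, A i ^ 2 * B + A i < N i)
    {S : Set ι} {Y : GVar W Γ} (hY : Tower X Z S Y) (j : ℕ) (y : W.H Y.X)
    (hy : IsTateClass D Y j y) : y ∈ Submodule.span W.K {e | IsExtProduct D X Z Y e} := by
  obtain ⟨c, hs, hc⟩ := hX.cover
  let C := fun i => ((hc i).exists_data (hX.prime i)).some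
  obtain ⟨T, -, ⟨Q⟩⟩ := exists_funs C hY
  exact Q.dec j y hy fun τ hτ φ hφ => vanish C Q hD hZ hν hd hB hX.two_le hN hs hy hτ hφ

/-- external products are algebraic if the Tate classes of `Z` are -/
theorem ext_alg (hT : Tate D Z) {Y : GVar W Γ} {e : W.H Y.X} (he : IsExtProduct D X Z Y e) :
    e ∈ algSpan W Y.X := by
  induction he with
  | base j z hz =>
    exact Submodule.span_mono (Set.subset_iUnion _ j) (hT j z hz.1 hz.2)
  | step i υ j a _ ha ih => exact algSpan_mul (algSpan_map _ (alg_mem ha)) (algSpan_map _ ih)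

theorem tate_of_base (hD : IsNormalized D) (hX : IsCoverFamily D N A X) (hZ : GaloisType D Z)
    {B ν : ℕ} (hν : 0 < ν) (hd : ∀ i, ν ≤ (X i).X.dim)
    (hB : ∀ b e, ν ≤ e → hodgeNumber D Z b e ≤ B) (hN : ∀ i, A i ^ 2 * B + A i < N i)
    {S : Set ι} {Y : GVar W Γ} (hY : Tower X Z S Y) (hT : Tate D Z) : Tate D Y := by
  intro j y hy hfix
  refine algSpan_gr ?_ hy
  have h1 := tate_span hD hX hZ hν hd hB hN hY j y ⟨hy, hfix⟩
  have h2 : Submodule.span W.K {e | IsExtProduct D X Z Y e} ≤ algSpan W Y.X :=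
    Submodule.span_le.2 fun e he => ext_alg hT he
  exact h2 h1

theorem base_of_tate (hX : IsCoverFamily D N A X) {S : Set ι} {Y : GVar W Γ}
    (hY : Tower X Z S Y) (hT : Tate D Y) : Tate D Z := by
  obtain ⟨c, -, hc⟩ := hX.cover
  induction hY with
  | base => exact hT
  | @step S Y Y' i _ _ h ih =>
    obtain ⟨υ, h1, h2⟩ := h
    refine ih fun j y hy hfix => ?_
    obtain ⟨z, hz, hz0⟩ := (hc i).point
    obtain ⟨Δ, hΔ, hfix⟩ := hfix
    have h3 := hT j (W.map (snd (X i).X Y.X) y) (W.map_mem _ hy) ⟨Δ, hΔ, fun g hg => by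
      rw [h2 g y, hfix g hg, map_smul]⟩
    have h4 : W.push (snd (X i).X Y.X) (W.map (fst (X i).X Y.X) (W.cl (X i).X z) *
        W.map (snd (X i).X Y.X) y) ∈ algSpan W Y.X :=
      algSpan_push _ (algSpan_mul (algSpan_map _ (alg_mem ⟨z, hz, rfl⟩))
        (Submodule.span_mono (Set.subset_iUnion _ j) h3))
    rw [W.push_snd, W.tr_cl hz] at h4
    have h5 : (((X i).X.V.degCycle z : ℚ) : W.K) ≠ 0 := by exact_mod_cast hz0
    have h6 := Submodule.smul_mem _ (((X i).X.V.degCycle z : ℚ) : W.K)⁻¹ h4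
    rw [smul_smul, inv_mul_cancel₀ h5, one_smul] at h6
    exact algSpan_gr h6 hy

/-- **The theorem.** -/
theorem main (hD : IsNormalized D) (hX : IsCoverFamily D N A X) (hZ : GaloisType D Z)
    {B ν : ℕ} (hν : 0 < ν) (hd : ∀ i, ν ≤ (X i).X.dim)
    (hB : ∀ b e, ν ≤ e → hodgeNumber D Z b e ≤ B) (hN : ∀ i, A i ^ 2 * B + A i < N i)
    {S : Set ι} {Y : GVar W Γ} (hY : Tower X Z S Y) :
    (∀ j y, IsTateClass D Y j y → y ∈ Submodule.span W.K {e | IsExtProduct D X Z Y e}) ∧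
      (Tate D Y ↔ Tate D Z) :=
  ⟨fun j y hy => tate_span hD hX hZ hν hd hB hN hY j y hy,
    ⟨base_of_tate hX hY, tate_of_base hD hX hZ hν hd hB hN hY⟩⟩

end Pool.Agent.U231.LP
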