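import Mathlib

/-!
# Cyclic coverings of large prime degree: arithmetic
-/

set_option autoImplicit false

namespace Pool.Agent.U231.LP

/-- Dirichlet approximation modulo a prime number. -/
theorem exists_small {N : ℕ} (hN : N.Prime) {r : ℤ} (hr : ¬(N : ℤ) ∣ r) :
    ∃ x y : ℤ, 0 < x ∧ x ≤ N.sqrt ∧ |y| ≤ N.sqrt ∧ y ≠ 0 ∧ (N : ℤ) ∣ y - r * x := by
  have hn : 0 < N.sqrt := Nat.sqrt_pos.2 hN.pos
  obtain ⟨j, x, hx0, hx1, hx2⟩ := Real.exists_int_int_abs_mul_sub_le ((r : ℝ) / N) hn
  have hN0 : (0 : ℝ) < N := by exact_mod_cast hN.pos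
  have hlt : N.sqrt < N := Nat.sqrt_lt_self hN.one_lt
  refine ⟨x, r * x - j * N, hx0, hx1, ?_, ?_, ⟨-j, by ring⟩⟩
  · have h1 : |((r * x - j * N : ℤ) : ℝ)| ≤ N / (N.sqrt + 1) := by
      have h2 : ((r * x - j * N : ℤ) : ℝ) = (x * (r / N) - j) * N := by
        push_cast
        field_simp
      rw [h2, abs_mul, abs_of_pos hN0]
      calc |(x : ℝ) * (r / N) - j| * N ≤ 1 / (N.sqrt + 1) * N :=
            mul_le_mul_of_nonneg_right hx2 hN0.le
        _ = N / (N.sqrt + 1) := by ring
    have h3 : (N : ℝ) / (N.sqrt + 1) < N.sqrt + 1 := by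
      rw [div_lt_iff₀ (by positivity)]
      exact_mod_cast Nat.lt_succ_sqrt N
    have h4 : |(r * x - j * N : ℤ)| < N.sqrt + 1 := by
      have := lt_of_le_of_lt h1 h3
      exact_mod_cast this
    omega
  · intro h
    have h1 : (N : ℤ) ∣ r * x := ⟨j, by linarith⟩
    rcases (Nat.prime_iff_prime_int.1 hN).dvd_or_dvd h1 with h2 | h2
    · exact hr h2
    · have := Int.le_of_dvd hx0 h2
      omega

/-- **Low and high residues.** Let `A ^ 2 < N`. Either some `x` with `0 < x < N / A` is mapped by the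
multiplication by `r` to a `y` with `-N / A < y < 0`, or `r` is a quotient of positive integers
smaller than `A`. -/
theorem exists_low_high {N : ℕ} (hN : N.Prime) {A : ℕ} (hA : A ^ 2 < N) {r : ℤ}
    (hr : ¬(N : ℤ) ∣ r) :
    (∃ x y : ℤ, 0 < x ∧ A * x < N ∧ y < 0 ∧ -(N : ℤ) < A * y ∧ (N : ℤ) ∣ y - r * x) ∨
      ∃ x y : ℤ, 0 < x ∧ x < A ∧ 0 < y ∧ y < A ∧ (N : ℤ) ∣ y - r * x := by
  obtain ⟨x₀, y₀, hx0, hx1, hy0, hy1, hd0⟩ := exists_small hN hr
  have hsq : N.sqrt * N.sqrt < N := by
    refine lt_of_le_of_ne (Nat.sqrt_le N) fun h => ?_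
    exact Irreducible.not_isSquare hN ⟨N.sqrt, h.symm⟩
  have hAn : A ≤ N.sqrt := by
    rw [Nat.le_sqrt]
    nlinarith
  have hsqZ : (N.sqrt : ℤ) * N.sqrt < N := by exact_mod_cast hsq
  have hAnZ : (A : ℤ) ≤ N.sqrt := by exact_mod_cast hAn
  have hA0 : (0 : ℤ) ≤ A := by positivity
  generalize (N.sqrt : ℤ) = n at hx1 hy0 hsqZ hAnZ
  rcases lt_or_gt_of_ne hy1 with hy | hy
  · left
    rw [abs_of_neg hy] at hy0
    refine ⟨x₀, y₀, hx0, ?_, hy, ?_, hd0⟩
    · nlinarith
    · nlinarith
  rw [abs_of_pos hy] at hy0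
  -- coprime numbers
  obtain ⟨x, y, hx, hxn, hyp, hyn, hd, hco⟩ : ∃ x y : ℤ, 0 < x ∧ x ≤ n ∧ 0 < y ∧ y ≤ n ∧
      (N : ℤ) ∣ y - r * x ∧ IsCoprime x y := by
    have hg : 0 < Int.gcd x₀ y₀ := Int.gcd_pos_of_ne_zero_left _ hx0.ne'
    obtain ⟨x, y, hco, hx, hy'⟩ := Int.exists_gcd_one hg
    have hgZ : (0 : ℤ) < Int.gcd x₀ y₀ := by exact_mod_cast hg
    generalize (Int.gcd x₀ y₀ : ℤ) = g at hx hy' hgZ
    subst hx hy'
    have hxp : 0 < x := (mul_pos_iff_of_pos_right hgZ).1 hx0
    have hyp : 0 < y := (mul_pos_iff_of_pos_right hgZ).1 hy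
    have hxle : x ≤ x * g := le_mul_of_one_le_right hxp.le hgZ
    have hyle : y ≤ y * g := le_mul_of_one_le_right hyp.le hgZ
    have hgle : g ≤ x * g := le_mul_of_one_le_left hgZ.le hxp
    refine ⟨x, y, hxp, by omega, hyp, by omega, ?_, Int.isCoprime_iff_gcd_eq_one.2 hco⟩
    have h1 : (N : ℤ) ∣ g * (y - r * x) := by
      have : g * (y - r * x) = y * g - r * (x * g) := by ring
      rw [this]
      exact hd0
    rcases (Nat.prime_iff_prime_int.1 hN).dvd_or_dvd h1 with h2 | h2
    · exfalso
      have h3 := Int.le_of_dvd hgZ h2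
      nlinarith
    · exact h2
  clear hx0 hx1 hy0 hy1 hd0 hy
  have hxy : x * y < N := by nlinarith
  by_cases hyA : y < A
  · by_cases hxA : x < A
    · exact Or.inr ⟨x, y, hx, hxA, hyp, hyA, hd⟩
    · left
      push Not at hxA
      -- `x' ∈ [1, x]` with `y x' = N` modulo `x`
      obtain ⟨a, b, hab⟩ := hco
      -- `a x + b y = 1`
      obtain ⟨x', hx'1, hx'2, hx'3⟩ : ∃ x' : ℤ, 0 < x' ∧ x' ≤ x ∧ x ∣ y * x' - N := by
        refine ⟨(b * N - 1) % x + 1, ?_, ?_, ?_⟩
        · have := Int.emod_nonneg (b * N - 1) hx.ne'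
          omega
        · have := Int.emod_lt_of_pos (b * N - 1) hx
          omega
        · have h1 : x ∣ (b * N - 1) % x + 1 - b * N := by
            have h2 := Int.emod_add_mul_ediv (b * N - 1) x
            exact ⟨-((b * N - 1) / x), by linarith⟩
          have h2 : y * ((b * N - 1) % x + 1) - N =
              y * ((b * N - 1) % x + 1 - b * N) - (1 - b * y) * N := by ring
          rw [h2]
          refine dvd_sub (Dvd.dvd.mul_left h1 _) ?_
          exact Dvd.dvd.mul_right ⟨a, by linarith⟩ _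
      obtain ⟨y', hy'⟩ := hx'3
      have hyx : y * x' < N := by nlinarith
      refine ⟨x', y', hx'1, ?_, ?_, ?_, ?_⟩
      · nlinarith
      · by_contra h
        push Not at h
        nlinarith
      · have h1 : -(N : ℤ) < x * y' := by
          have : 0 < y * x' := by positivity
          linarith
        have hy'0 : y' < 0 := by
          by_contra h
          push Not at h
          nlinarith
        nlinarith
      · -- `x (y' - r x') = (y - r x) x' - N`
        have h1 : (N : ℤ) ∣ x * (y' - r * x') := by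
          have : x * (y' - r * x') = (y - r * x) * x' - N := by
            have := hy'
            linarith
          rw [this]
          exact dvd_sub (Dvd.dvd.mul_right hd _) (dvd_refl _)
        rcases (Nat.prime_iff_prime_int.1 hN).dvd_or_dvd h1 with h2 | h2
        · exfalso
          have h3 := Int.le_of_dvd hx h2
          nlinarith
        · exact h2
  · left
    push Not at hyA
    obtain ⟨a, b, hab⟩ := hco
    -- `y' ∈ [-y, -1]` with `x y' = -N` modulo `y`
    obtain ⟨y', hy'1, hy'2, hy'3⟩ : ∃ y' : ℤ, y' < 0 ∧ -y ≤ y' ∧ y ∣ N + x * y' := by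
      refine ⟨-((a * N - 1) % y + 1), ?_, ?_, ?_⟩
      · have := Int.emod_nonneg (a * N - 1) hyp.ne'
        omega
      · have := Int.emod_lt_of_pos (a * N - 1) hyp
        omega
      · have h1 : y ∣ (a * N - 1) % y + 1 - a * N := by
          have h2 := Int.emod_add_mul_ediv (a * N - 1) y
          exact ⟨-((a * N - 1) / y), by linarith⟩
        have h2 : (N : ℤ) + x * -((a * N - 1) % y + 1) =
            (1 - a * x) * N - x * ((a * N - 1) % y + 1 - a * N) := by ring
        rw [h2]
        refine dvd_sub (Dvd.dvd.mul_right ⟨b, by linarith⟩ _) (Dvd.dvd.mul_left h1 _)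
    obtain ⟨x', hx'⟩ := hy'3
    have hpos : 0 < y * x' := by
      rw [← hx']
      nlinarith
    have hx'0 : 0 < x' := (mul_pos_iff_of_pos_left hyp).1 hpos
    have hlt : y * x' < N := by
      rw [← hx']
      nlinarith
    refine ⟨x', y', hx'0, ?_, hy'1, ?_, ?_⟩
    · nlinarith
    · nlinarith
    · have h1 : (N : ℤ) ∣ y * (y' - r * x') := by
        have : y * (y' - r * x') = (y - r * x) * y' - r * N := by
          have := hx'
          linear_combination r * this
        rw [this]
        exact dvd_sub (Dvd.dvd.mul_right hd _) (Dvd.dvd.mul_left (dvd_refl _) _)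
      rcases (Nat.prime_iff_prime_int.1 hN).dvd_or_dvd h1 with h2 | h2
      · exfalso
        have h3 := Int.le_of_dvd hyp h2
        nlinarith
      · exact h2

/-- **Separation of the residues `A B + 1 - k`.** -/
theorem exists_sep {N : ℕ} (hN : N.Prime) {A B : ℕ} (hA : 2 ≤ A) (hB : A ^ 2 * B + A < N)
    {k l : ℕ} (hk : k ≤ B) (hl : l ≤ B) (hkl : k ≠ l) : ∃ x y : ℤ, 0 < x ∧ A * x < N ∧ y < 0 ∧
      -(N : ℤ) < A * y ∧ (N : ℤ) ∣ y * (A * B + 1 - k) - x * (A * B + 1 - l) := by
  have hp := Nat.prime_iff_prime_int.1 hN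
  have hB1 : 1 ≤ B := by omega
  have hBZ : (A : ℤ) ^ 2 * B + A < N := by exact_mod_cast hB
  have hAZ : (2 : ℤ) ≤ A := by exact_mod_cast hA
  have hkZ : (k : ℤ) ≤ B := by exact_mod_cast hk
  have hlZ : (l : ℤ) ≤ B := by exact_mod_cast hl
  have hB1Z : (1 : ℤ) ≤ B := by exact_mod_cast hB1
  have hk0 : (0 : ℤ) ≤ k := by positivity
  have hl0 : (0 : ℤ) ≤ l := by positivity
  set a : ℤ := A * B + 1 - k with ha
  set b : ℤ := A * B + 1 - l with hb
  have ha0 : (A - 1) * B < a := by rw [ha]; linarith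
  have hb0 : (A - 1) * B < b := by rw [hb]; linarith
  have hpos : (0 : ℤ) < (A - 1) * B := mul_pos (by linarith) (by linarith)
  have haN : A * a < N := by rw [ha]; nlinarith
  have hbN : A * b < N := by rw [hb]; nlinarith
  have hndvd : ∀ c : ℤ, 0 < c → c < N → ¬(N : ℤ) ∣ c := fun c h1 h2 h3 => by
    have := Int.le_of_dvd h1 h3
    linarith
  have haN' : a < N := by nlinarith
  have hbN' : b < N := by nlinarith
  -- the quotient `r = b / a`
  obtain ⟨r, hr⟩ : ∃ r : ℤ, (N : ℤ) ∣ b - r * a := by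
    have hco : IsCoprime a (N : ℤ) := (hp.coprime_iff_not_dvd.2
      (hndvd a (by linarith) haN')).symm
    obtain ⟨u, v, huv⟩ := hco
    exact ⟨u * b, ⟨v * b, by linear_combination b * huv.symm⟩⟩
  have hr0 : ¬(N : ℤ) ∣ r := by
    intro h
    have h1 : (N : ℤ) ∣ b := by
      have := dvd_add hr (Dvd.dvd.mul_right h a)
      simpa using this
    exact hndvd b (by linarith) hbN' h1
  have hA2 : A ^ 2 < N := by nlinarith
  rcases exists_low_high hN hA2 hr0 with ⟨x, y, h1, h2, h3, h4, h5⟩ | ⟨x, y, h1, h2, h3, h4, h5⟩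
  · refine ⟨x, y, h1, h2, h3, h4, ?_⟩
    have : y * a - x * b = (y - r * x) * a - x * (b - r * a) := by ring
    rw [this]
    exact dvd_sub (Dvd.dvd.mul_right h5 _) (Dvd.dvd.mul_left hr _)
  · exfalso
    have h6 : (N : ℤ) ∣ y * a - x * b := by
      have : y * a - x * b = (y - r * x) * a - x * (b - r * a) := by ring
      rw [this]
      exact dvd_sub (Dvd.dvd.mul_right h5 _) (Dvd.dvd.mul_left hr _)
    have ha00 : 0 < a := by linarith
    have hb00 : 0 < b := by linarith
    have h71 : 0 < y * a := mul_pos h3 ha00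
    have h72 : 0 < x * b := mul_pos h1 hb00
    have h73 : y * a ≤ A * a := mul_le_mul_of_nonneg_right h4.le ha00.le
    have h74 : x * b ≤ A * b := mul_le_mul_of_nonneg_right h2.le hb00.le
    have h7 : |y * a - x * b| < N := by
      rw [abs_lt]
      constructor
      · linarith
      · linarith
    have h8 : y * a - x * b = 0 := Int.eq_zero_of_abs_lt_dvd h6 h7
    have h9 : a - b = l - k := by rw [ha, hb]; ring
    have h10 : (l : ℤ) - k ≠ 0 := fun h => hkl (by omega)
    rcases lt_trichotomy x y with h | h | h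
    · -- `(y - x) a = x (b - a)`
      have h11 : (y - x) * a = x * (k - l) := by linear_combination h8 - x * h9
      have h12 : a ≤ (y - x) * a := le_mul_of_one_le_left ha00.le (by linarith)
      have h13 : x * (k - l) ≤ (A - 1) * B := by
        rcases le_or_gt 0 ((k : ℤ) - l) with h14 | h14
        · exact mul_le_mul (by linarith) (by linarith) h14 (by linarith)
        · have : x * ((k : ℤ) - l) < 0 := mul_neg_of_pos_of_neg h1 h14
          linarith
      linarith
    · rw [h] at h8
      have : y * (a - b) = 0 := by linear_combination h8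
      rcases mul_eq_zero.1 this with h11 | h11
      · linarith
      · exact h10 (by linarith)
    · have h11 : (x - y) * b = y * (l - k) := by linear_combination -h8 + y * h9
      have h12 : b ≤ (x - y) * b := le_mul_of_one_le_left hb00.le (by linarith)
      have h13 : y * (l - k) ≤ (A - 1) * B := by
        rcases le_or_gt 0 ((l : ℤ) - k) with h14 | h14
        · exact mul_le_mul (by linarith) (by linarith) h14 (by linarith)
        · have : y * ((l : ℤ) - k) < 0 := mul_neg_of_pos_of_neg h3 h14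
          linarith
      linarith

section

variable {K F : Type*} [Field K] [AddCommGroup F] [Module K F]

/-- **Independence from operators which separate pairs.** -/
theorem indep_of_pairs {κ : Type*} [Finite κ] (V : κ → Submodule K F) (u : κ → F)
    (hu : ∀ k, u k ∈ V k) (hu0 : ∀ k, u k ≠ 0) (P : κ → κ → Module.End K F)
    (h1 : ∀ k l, k ≠ l → ∀ x ∈ V k, P k l x = x) (h0 : ∀ k l, k ≠ l → ∀ x ∈ V l, P k l x = 0)
    (hst : ∀ k l m, k ≠ l → ∀ x ∈ V m, P k l x ∈ V m) : LinearIndependent K u := by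
  classical
  have := Fintype.ofFinite κ
  rw [Fintype.linearIndependent_iff]
  intro g hg k
  let O : List κ → Module.End K F := fun s => (s.map (P k)).prod
  have hO1 : ∀ s : List κ, k ∉ s → ∀ x ∈ V k, O s x = x := by
    intro s hs x hx
    induction s with
    | nil => rfl
    | cons l s ih =>
      have hl : k ≠ l := fun h => hs (h ▸ List.mem_cons_self)
      change P k l (O s x) = x
      rw [ih fun h => hs (List.mem_cons_of_mem _ h), h1 k l hl x hx]
  have hO2 : ∀ s : List κ, k ∉ s → ∀ m, ∀ x ∈ V m, O s x ∈ V m := by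
    intro s hs m x hx
    induction s with
    | nil => exact hx
    | cons l s ih =>
      have hl : k ≠ l := fun h => hs (h ▸ List.mem_cons_self)
      exact hst k l m hl _ (ih fun h => hs (List.mem_cons_of_mem _ h))
  have hO3 : ∀ s : List κ, k ∉ s → ∀ m ∈ s, ∀ x ∈ V m, O s x = 0 := by
    intro s hs m hm x hx
    induction s with
    | nil => exact absurd hm List.not_mem_nil
    | cons l s ih =>
      have hl : k ≠ l := fun h => hs (h ▸ List.mem_cons_self)
      have hs' : k ∉ s := fun h => hs (List.mem_cons_of_mem _ h)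
      change P k l (O s x) = 0
      rcases List.mem_cons.1 hm with rfl | hm
      · exact h0 k m hl _ (hO2 s hs' m x hx)
      · rw [ih hs' hm, map_zero]
  have hk : k ∉ (Finset.univ.erase k).toList := by simp
  have h2 := congrArg (O (Finset.univ.erase k).toList) hg
  rw [map_zero, map_sum, Finset.sum_eq_single k] at h2
  · rw [map_smul, hO1 _ hk _ (hu k)] at h2
    exact (smul_eq_zero.1 h2).resolve_right (hu0 k)
  · intro m _ hm
    rw [map_smul, hO3 _ hk m (by simpa using hm) _ (hu m), smul_zero]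
  · intro h
    exact absurd (Finset.mem_univ _) h

end

end Pool.Agent.U231.LP
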