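import Pool.Agent.U231.LP.Dec
import Pool.Agent.U231.LP.Ari

/-!
# Cyclic coverings of large prime degree: towers
-/

set_option autoImplicit false

open CategoryTheory AlgebraicGeometry Finset

universe u

namespace Pool.Agent.U231.LP

open Pool.Agent.Y95.ZT.S Pool.Agent.H914 Pool.Agent.H914.VarClass Pool.Agent.H914.VarClass.Obj
  Pool.Agent.H914.WeilCohomology Pool.Agent.H281R3.HT Pool.Agent.TH125.Gal

variable {k : Type u} [Field k] {𝒱 : VarClass k} {ops : CycleOps 𝒱}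
  {W : WeilCohomology.{u, 0} ops} {Γ : Type} [Group Γ] {D : WeightData W.K Γ}
  {ι : Type} {N A : ι → ℕ} {X : ι → GVar W Γ} {Z : GVar W Γ} {c : ∀ i, Γ →* (ZMod (N i))ˣ}

/-- the action on the types of the functionals -/
def actTy (c : ∀ i, Γ →* (ZMod (N i))ˣ) (g : Γ) (τ : ∀ i, ZMod (N i) × ℕ) :
    ∀ i, ZMod (N i) × ℕ := fun i => ((c i g : ZMod (N i)) * (τ i).1, (τ i).2)

/-- the functionals on a tower with values in the cohomology of `Z` -/
structure Funs (C : ∀ i, CData D (N i) (A i) (c i) (X i)) (Z : GVar W Γ) (S : Finset ι)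
    (Y : GVar W Γ) where
  Φ : (∀ i, ZMod (N i) × ℕ) → Set (W.H Y.X →ₗ[W.K] W.H Z.X)
  ext : ∀ τ τ', (∀ i ∈ S, τ i = τ' i) → Φ τ = Φ τ'
  act : ∀ τ, ∀ φ ∈ Φ τ, ∀ g, (Z.act g⁻¹).toLinearMap ∘ₗ φ ∘ₗ (Y.act g).toLinearMap ∈
    Φ (actTy c g τ)
  wt : ∀ τ, ∀ φ ∈ Φ τ, ∀ lam : ι → W.K, (∀ i ∈ S, (C i).HasW (τ i).1 (τ i).2 (lam i)) →
    ∀ y, weight D Z (φ y) = φ (weight D Y y) - (∑ i ∈ S, lam i) • φ y
  cf : ∀ τ, ∀ φ ∈ Φ τ, ∃ φ' ∈ Submodule.span W.K (Φ τ), ∀ y,
    weight D Z (φ y) = φ (weight D Y y) - φ' y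
  gr : ∀ τ, ∀ φ ∈ Φ τ, ∀ w, ∀ y ∈ W.gr Y.X w,
    φ y ∈ grZ (W.gr Z.X) ((w : ℤ) - ∑ i ∈ S, ((τ i).2 : ℤ))
  sep : ∀ y, (∀ τ, ∀ φ ∈ Φ τ, φ y = 0) → y = 0
  dec : ∀ w y, IsTateClass D Y w y → (∀ τ, (∃ i ∈ S, (τ i).1 ≠ 0) → ∀ φ ∈ Φ τ, φ y = 0) →
    y ∈ Submodule.span W.K {e | IsExtProduct D X Z Y e}

/-- the basis of the tower -/
def Funs.base (C : ∀ i, CData D (N i) (A i) (c i) (X i)) (Z : GVar W Γ) : Funs C Z ∅ Z where
  Φ _ := {LinearMap.id}
  ext _ _ _ := rfl
  act := by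
    rintro τ φ rfl g
    rw [Set.mem_singleton_iff]
    apply LinearMap.ext
    intro x
    change Z.act g⁻¹ (Z.act g x) = x
    rw [← AlgEquiv.mul_apply, ← map_mul, inv_mul_cancel, map_one]
    rfl
  wt := by
    rintro τ φ rfl lam _ y
    simp
  cf := by
    rintro τ φ rfl
    exact ⟨0, Submodule.zero_mem _, fun y => by simp⟩
  gr := by
    rintro τ φ rfl w y hy
    rw [sum_empty, sub_zero, grZ_natCast]
    exact hy
  sep := fun y h => h (fun _ => (0, 0)) LinearMap.id rfl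
  dec := fun w y hy _ => Submodule.subset_span (IsExtProduct.base w y hy)

theorem grZ_act (hZ : GaloisType D Z) (g : Γ) {e : ℤ} {z : W.H Z.X} (hz : z ∈ grZ (W.gr Z.X) e) :
    Z.act g z ∈ grZ (W.gr Z.X) e := by
  rcases lt_or_ge e 0 with h | h
  · rw [grZ_of_neg h, Submodule.mem_bot] at hz ⊢
    rw [hz, map_zero]
  · lift e to ℕ using h
    rw [grZ_natCast] at hz ⊢
    exact hZ.gr_mem g e z hz

/-- one step -/
noncomputable def Funs.step (C : ∀ i, CData D (N i) (A i) (c i) (X i)) [DecidableEq ι]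
    {S : Finset ι} {Y : GVar W Γ} (Q : Funs C Z S Y) {i : ι} (hi : i ∉ S)
    {υ : Γ →* (W.H ((X i).X.prod Y.X) ≃ₐ[W.K] W.H ((X i).X.prod Y.X))}
    (h1 : Intertwines (W.map (fst (X i).X Y.X)) (X i).act υ)
    (h2 : Intertwines (W.map (snd (X i).X Y.X)) Y.act υ) :
    Funs C Z (insert i S) ⟨(X i).X.prod Y.X, υ⟩ where
  Φ τ := {ψ | ∃ f, (C i).IsFn (τ i).1 (τ i).2 f ∧ ∃ φ ∈ Q.Φ τ, ψ = φ ∘ₗ ctr f}
  ext := by
    intro τ τ' h
    have h3 : Q.Φ τ = Q.Φ τ' := Q.ext τ τ' fun a ha => h a (mem_insert_of_mem ha)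
    rw [h3, h i (mem_insert_self i S)]
  act := by
    rintro τ ψ ⟨f, hf, φ, hφ, rfl⟩ g
    refine ⟨f ∘ₗ ((X i).act g).toLinearMap, (C i).isFn_act hf g, _, Q.act τ φ hφ g, ?_⟩
    apply LinearMap.ext
    intro y
    change Z.act g⁻¹ (φ (ctr f (υ g y))) =
      Z.act g⁻¹ (φ (Y.act g (ctr (f ∘ₗ ((X i).act g).toLinearMap) y)))
    rw [ctr_act h1 h2]
  wt := by
    rintro τ ψ ⟨f, hf, φ, hφ, rfl⟩ lam hlam y
    change weight D Z (φ (ctr f y)) = φ (ctr f (weight D ⟨(X i).X.prod Y.X, υ⟩ y)) - _ • φ (ctr f y)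
    rw [Q.wt τ φ hφ lam (fun a ha => hlam a (mem_insert_of_mem ha)),
      ctr_weight D h1 h2 (hlam i (mem_insert_self i S) f hf), sum_insert hi, map_sub, map_smul,
      add_smul]
    abel
  cf := by
    rintro τ ψ ⟨f, hf, φ, hφ, rfl⟩
    obtain ⟨φ', hφ', h3⟩ := Q.cf τ φ hφ
    refine ⟨φ ∘ₗ ctr (f ∘ₗ weight D (X i)) + φ' ∘ₗ ctr f, Submodule.add_mem _
      (Submodule.subset_span ⟨f ∘ₗ weight D (X i), (C i).isFn_weight hf, φ, hφ, rfl⟩) ?_,
      fun y => ?_⟩
    · clear h3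
      induction hφ' using Submodule.span_induction with
      | mem e he => exact Submodule.subset_span ⟨f, hf, e, he, rfl⟩
      | zero => rw [LinearMap.zero_comp]; exact Submodule.zero_mem _
      | add e e' _ _ he he' => rw [LinearMap.add_comp]; exact Submodule.add_mem _ he he'
      | smul q e _ he => rw [LinearMap.smul_comp]; exact Submodule.smul_mem _ _ he
    · change weight D Z (φ (ctr f y)) = φ (ctr f (weight D ⟨(X i).X.prod Y.X, υ⟩ y)) -
        (φ (ctr (f ∘ₗ weight D (X i)) y) + φ' (ctr f y))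
      rw [h3, ctr_weight' D h1 h2, map_sub]
      abel
  gr := by
    rintro τ ψ ⟨f, hf, φ, hφ, rfl⟩ w y hy
    change φ (ctr f y) ∈ _
    have h3 := ctr_gr hf.2 hy
    have h4 : (w : ℤ) - ∑ a ∈ insert i S, ((τ a).2 : ℤ) =
        ((w : ℤ) - (τ i).2) - ∑ a ∈ S, ((τ a).2 : ℤ) := by
      rw [sum_insert hi]
      ring
    rw [h4]
    rcases lt_or_ge ((w : ℤ) - (τ i).2) 0 with h | h
    · rw [grZ_of_neg h, Submodule.mem_bot] at h3
      rw [h3, map_zero]
      exact Submodule.zero_mem _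
    · obtain ⟨m, hm⟩ := Int.eq_ofNat_of_zero_le h
      rw [hm, grZ_natCast] at h3
      rw [hm]
      exact Q.gr τ φ hφ m _ h3
  sep := by
    intro y h
    apply (C i).eq_zero_of_ctr
    intro t d f hf
    apply Q.sep
    intro τ φ hφ
    have h3 : Q.Φ τ = Q.Φ (Function.update τ i (t, d)) := Q.ext _ _ fun a ha => by
      rw [Function.update_of_ne (fun h4 : a = i => hi (h4 ▸ ha))]
    refine h (Function.update τ i (t, d)) (φ ∘ₗ ctr f) ⟨f, ?_, φ, h3 ▸ hφ, rfl⟩
    rw [Function.update_self]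
    exact hf
  dec := by
    intro w y hy h
    have key : ∀ t d f, (C i).IsFn t d f → ∀ τ, (t ≠ 0 ∨ ∃ a ∈ S, (τ a).1 ≠ 0) → ∀ φ ∈ Q.Φ τ,
        φ (ctr f y) = 0 := by
      intro t d f hf τ hτ φ hφ
      have h3 : Q.Φ τ = Q.Φ (Function.update τ i (t, d)) := Q.ext _ _ fun a ha => by
        rw [Function.update_of_ne (fun h4 : a = i => hi (h4 ▸ ha))]
      refine h (Function.update τ i (t, d)) ?_ (φ ∘ₗ ctr f) ⟨f, ?_, φ, h3 ▸ hφ, rfl⟩
      · rcases hτ with hτ | ⟨a, ha, hτ⟩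
        · exact ⟨i, mem_insert_self i S, by rw [Function.update_self]; exact hτ⟩
        · exact ⟨a, mem_insert_of_mem ha, by
            rw [Function.update_of_ne (fun h4 : a = i => hi (h4 ▸ ha))]; exact hτ⟩
      · rw [Function.update_self]
        exact hf
    obtain ⟨κ, _, a, j, z, f, hy1, ha, hz, hf, hzf⟩ := (C i).decompose h1 h2 hy
      fun t ht d f hf => Q.sep _ fun τ φ hφ => key t d f hf τ (Or.inl ht) φ hφ
    rw [hy1]
    refine Submodule.sum_mem _ fun r _ => ?_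
    obtain ⟨m, hm⟩ := hz r
    have h3 := Q.dec m (z r) hm fun τ hτ φ hφ => by
      rw [hzf r]
      exact key 0 (2 * j r) (f r) (hf r) τ (Or.inr hτ) φ hφ
    generalize z r = zr at h3
    induction h3 using Submodule.span_induction with
    | mem e he => exact Submodule.subset_span (IsExtProduct.step i υ (j r) (a r) he (ha r))
    | zero => rw [map_zero, mul_zero]; exact Submodule.zero_mem _
    | add e e' _ _ he he' => rw [map_add, mul_add]; exact Submodule.add_mem _ he he'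
    | smul q e _ he => rw [map_smul, mul_smul_comm]; exact Submodule.smul_mem _ _ he

/-- towers have functionals -/
theorem exists_funs (C : ∀ i, CData D (N i) (A i) (c i) (X i)) {S : Set ι} {Y : GVar W Γ}
    (hY : Tower X Z S Y) : ∃ T : Finset ι, (T : Set ι) = S ∧ Nonempty (Funs C Z T Y) := by
  classical
  induction hY with
  | base => exact ⟨∅, by simp, ⟨Funs.base C Z⟩⟩
  | @step S Y Y' i _ hi h ih =>
    obtain ⟨υ, h1, h2⟩ := h
    obtain ⟨T, rfl, ⟨Q⟩⟩ := ih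
    exact ⟨insert i T, by simp, ⟨Q.step C (by simpa using hi) h1 h2⟩⟩

/-- the action on the span of the functionals -/
theorem Funs.act_span {C : ∀ i, CData D (N i) (A i) (c i) (X i)} {T : Finset ι} {Y : GVar W Γ}
    (Q : Funs C Z T Y) (τ : ∀ i, ZMod (N i) × ℕ) (g : Γ) {φ : W.H Y.X →ₗ[W.K] W.H Z.X}
    (hφ : φ ∈ Submodule.span W.K (Q.Φ τ)) :
    (Z.act g⁻¹).toLinearMap ∘ₗ φ ∘ₗ (Y.act g).toLinearMap ∈
      Submodule.span W.K (Q.Φ (actTy c g τ)) := by
  induction hφ using Submodule.span_induction with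
  | mem e he => exact Submodule.subset_span (Q.act τ e he g)
  | zero => rw [LinearMap.zero_comp, LinearMap.comp_zero]; exact Submodule.zero_mem _
  | add e e' _ _ he he' =>
    rw [LinearMap.add_comp, LinearMap.comp_add]
    exact Submodule.add_mem _ he he'
  | smul q e _ he =>
    rw [LinearMap.smul_comp, LinearMap.comp_smul]
    exact Submodule.smul_mem _ _ he

theorem act_inv_act (Y : GVar W Γ) (g : Γ) (x : W.H Y.X) : Y.act g⁻¹ (Y.act g x) = x := by
  rw [← AlgEquiv.mul_apply, ← map_mul, inv_mul_cancel, map_one]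
  rfl

theorem act_act_inv (Y : GVar W Γ) (g : Γ) (x : W.H Y.X) : Y.act g (Y.act g⁻¹ x) = x := by
  rw [← AlgEquiv.mul_apply, ← map_mul, mul_inv_cancel, map_one]
  rfl

theorem act_mul (Y : GVar W Γ) (g h : Γ) (x : W.H Y.X) : Y.act (g * h) x = Y.act g (Y.act h x) := by
  rw [map_mul]
  rfl

/-- the weight operator, conjugated -/
noncomputable def conjW (D : WeightData W.K Γ) (Z : GVar W Γ) (t : Γ) :
    Module.End W.K (W.H Z.X) :=
  (Z.act t).toLinearMap ∘ₗ weight D Z ∘ₗ (Z.act t⁻¹).toLinearMap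

/-- the space of the values -/
noncomputable def valSp {C : ∀ i, CData D (N i) (A i) (c i) (X i)} {T : Finset ι} {Y : GVar W Γ}
    (Q : Funs C Z T Y) (τ : ∀ i, ZMod (N i) × ℕ) (y : W.H Y.X) (s : Γ) :
    Submodule W.K (W.H Z.X) :=
  (Submodule.span W.K (Q.Φ τ)).map ((Z.act s⁻¹).toLinearMap ∘ₗ LinearMap.applyₗ y)

theorem mem_valSp {C : ∀ i, CData D (N i) (A i) (c i) (X i)} {T : Finset ι} {Y : GVar W Γ}
    {Q : Funs C Z T Y} {τ : ∀ i, ZMod (N i) × ℕ} {y : W.H Y.X} {s : Γ} {x : W.H Z.X} :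
    x ∈ valSp Q τ y s ↔ ∃ φ ∈ Submodule.span W.K (Q.Φ τ), Z.act s⁻¹ (φ y) = x := by
  rw [valSp, Submodule.mem_map]
  rfl

theorem valSp_ind {C : ∀ i, CData D (N i) (A i) (c i) (X i)} {T : Finset ι} {Y : GVar W Γ}
    {Q : Funs C Z T Y} {τ : ∀ i, ZMod (N i) × ℕ} {y : W.H Y.X} {s : Γ} {p : W.H Z.X → Prop}
    (h0 : p 0) (ha : ∀ x x', p x → p x' → p (x + x')) (hm : ∀ (q : W.K) x, p x → p (q • x))
    (h : ∀ φ ∈ Q.Φ τ, p (Z.act s⁻¹ (φ y))) {x : W.H Z.X} (hx : x ∈ valSp Q τ y s) : p x := by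
  obtain ⟨φ, hφ, rfl⟩ := mem_valSp.1 hx
  clear hx
  induction hφ using Submodule.span_induction with
  | mem e he => exact h e he
  | zero => rw [LinearMap.zero_apply, map_zero]; exact h0
  | add e e' _ _ he he' => rw [LinearMap.add_apply, map_add]; exact ha _ _ he he'
  | smul q e _ he => rw [LinearMap.smul_apply, map_smul]; exact hm _ _ he

section

variable {C : ∀ i, CData D (N i) (A i) (c i) (X i)} {T : Finset ι} {Y : GVar W Γ}
  (Q : Funs C Z T Y) (hD : IsNormalized D) {w : ℕ} {y : W.H Y.X} (hy : IsTateClass D Y w y)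
  (τ : ∀ i, ZMod (N i) × ℕ)

include hD hy in
theorem weight_conj (g : Γ) : weight D Y (Y.act g⁻¹ y) = (w : W.K) • Y.act g⁻¹ y := by
  obtain ⟨-, Δ, hΔ, hy2⟩ := hy
  rw [← theta_eq D hD w]
  refine weight_tate D Y w ⟨Δ.normalCore, inferInstance, fun h hh => ?_⟩
  have h5 : g * h * g⁻¹ ∈ Δ :=
    Subgroup.normalCore_le Δ ((Subgroup.normalCore_normal Δ).conj_mem h hh _)
  have h6 := hy2 _ h5
  have h7 : h * g⁻¹ = g⁻¹ * (g * h * g⁻¹) := by group
  rw [← act_mul, h7, act_mul, h6, map_smul]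
  congr 2
  rw [map_mul, map_mul, map_inv, mul_comm (D.χ g), mul_assoc, mul_inv_cancel, mul_one]

include hD hy in
/-- the conjugated weight operators are scalar if the types are known -/
theorem conjW_scalar (s t : Γ) (lam : ι → W.K)
    (hlam : ∀ i ∈ T, (C i).HasW (actTy c (s * t) τ i).1 (actTy c (s * t) τ i).2 (lam i))
    {x : W.H Z.X} (hx : x ∈ valSp Q τ y s) :
    conjW D Z t x = ((w : W.K) - ∑ i ∈ T, lam i) • x := by
  refine valSp_ind (p := fun x => conjW D Z t x = ((w : W.K) - ∑ i ∈ T, lam i) • x) ?_ ?_ ?_ ?_ hx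
  · rw [map_zero, smul_zero]
  · intro x x' h h'
    rw [map_add, h, h', smul_add]
  · intro q x h
    rw [map_smul, h, smul_comm]
  · intro φ hφ
    have e1 : Z.act t⁻¹ (Z.act s⁻¹ (φ y)) = Z.act (s * t)⁻¹ (φ y) := by
      rw [mul_inv_rev, act_mul]
    have e2 : Z.act (s * t)⁻¹ (φ y) = ((Z.act (s * t)⁻¹).toLinearMap ∘ₗ φ ∘ₗ
        (Y.act (s * t)).toLinearMap) (Y.act (s * t)⁻¹ y) := by
      change _ = Z.act (s * t)⁻¹ (φ (Y.act (s * t) (Y.act (s * t)⁻¹ y)))
      rw [act_act_inv]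
    have e5 := Q.wt _ _ (Q.act τ φ hφ (s * t)) lam hlam (Y.act (s * t)⁻¹ y)
    change Z.act t (weight D Z (Z.act t⁻¹ (Z.act s⁻¹ (φ y)))) = _
    rw [e1, e2, e5, weight_conj hD hy, map_smul, ← sub_smul, ← e2, map_smul, ← act_mul]
    congr 3
    group

include hD hy in
/-- the spaces of values are stable under the conjugated weight operators -/
theorem conjW_mem (s t : Γ) {x : W.H Z.X} (hx : x ∈ valSp Q τ y s) :
    conjW D Z t x ∈ valSp Q τ y s := by
  refine valSp_ind (p := fun x => conjW D Z t x ∈ valSp Q τ y s) ?_ ?_ ?_ ?_ hx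
  · rw [map_zero]; exact Submodule.zero_mem _
  · intro x x' h h'
    rw [map_add]
    exact Submodule.add_mem _ h h'
  · intro q x h
    rw [map_smul]
    exact Submodule.smul_mem _ _ h
  · intro φ hφ
    have e1 : Z.act t⁻¹ (Z.act s⁻¹ (φ y)) = Z.act (s * t)⁻¹ (φ y) := by
      rw [mul_inv_rev, act_mul]
    have e2 : Z.act (s * t)⁻¹ (φ y) = ((Z.act (s * t)⁻¹).toLinearMap ∘ₗ φ ∘ₗ
        (Y.act (s * t)).toLinearMap) (Y.act (s * t)⁻¹ y) := by
      change _ = Z.act (s * t)⁻¹ (φ (Y.act (s * t) (Y.act (s * t)⁻¹ y)))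
      rw [act_act_inv]
    obtain ⟨φ', hφ', e5⟩ := Q.cf _ _ (Q.act τ φ hφ (s * t))
    have e6 := Q.act_span _ (s * t)⁻¹ hφ'
    have e7 : actTy c (s * t)⁻¹ (actTy c (s * t) τ) = τ := by
      funext i
      simp only [actTy, map_inv, ← mul_assoc, ← Units.val_mul, inv_mul_cancel, Units.val_one,
        one_mul]
    rw [e7] at e6
    have e8 : Z.act t (φ' (Y.act (s * t)⁻¹ y)) ∈ valSp Q τ y s := by
      refine mem_valSp.2 ⟨_, e6, ?_⟩
      change Z.act s⁻¹ (Z.act (s * t)⁻¹⁻¹ (φ' (Y.act (s * t)⁻¹ y))) = _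
      rw [← act_mul]
      congr 2
      group
    have e9 : Z.act s⁻¹ (φ y) ∈ valSp Q τ y s :=
      mem_valSp.2 ⟨φ, Submodule.subset_span hφ, rfl⟩
    change Z.act t (weight D Z (Z.act t⁻¹ (Z.act s⁻¹ (φ y)))) ∈ _
    rw [e1, e2, e5, weight_conj hD hy, map_smul, ← e2, map_sub, map_smul, ← act_mul]
    have e10 : t * (s * t)⁻¹ = s⁻¹ := by group
    rw [e10]
    exact Submodule.sub_mem _ (Submodule.smul_mem _ _ e9) e8

end

/-- **Tate classes have no components for the nontrivial characters.** -/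
theorem vanish (C : ∀ i, CData D (N i) (A i) (c i) (X i)) {T : Finset ι} {Y : GVar W Γ}
    (Q : Funs C Z T Y) (hD : IsNormalized D) (hZ : GaloisType D Z) {B ν : ℕ} (hν : 0 < ν)
    (hX : ∀ i, ν ≤ (X i).X.dim) (hB : ∀ b e, ν ≤ e → hodgeNumber D Z b e ≤ B)
    (hA : ∀ i, 2 ≤ A i) (hN : ∀ i, A i ^ 2 * B + A i < N i)
    (hc : ∀ (S : Finset ι) (t : ∀ i, (ZMod (N i))ˣ), ∃ g, ∀ i ∈ S, c i g = t i)
    {w : ℕ} {y : W.H Y.X} (hy : IsTateClass D Y w y) {τ : ∀ i, ZMod (N i) × ℕ}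
    (hτ : ∃ i ∈ T, (τ i).1 ≠ 0) {φ : W.H Y.X →ₗ[W.K] W.H Z.X} (hφ : φ ∈ Q.Φ τ) : φ y = 0 := by
  classical
  by_contra hne
  have hgr := Q.gr τ φ hφ _ y hy.1
  obtain ⟨b, hb⟩ : ∃ b : ℕ, ((2 * w : ℕ) : ℤ) - ∑ i ∈ T, ((τ i).2 : ℤ) = b := by
    by_contra hcon
    push Not at hcon
    have h1 : ((2 * w : ℕ) : ℤ) - ∑ i ∈ T, ((τ i).2 : ℤ) < 0 := by
      by_contra h2
      exact hcon (((2 * w : ℕ) : ℤ) - ∑ i ∈ T, ((τ i).2 : ℤ)).toNat (by omega)
    rw [grZ_of_neg h1, Submodule.mem_bot] at hgr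
    exact hne hgr
  rw [hb, grZ_natCast] at hgr
  have hp : ∀ i, Fact (N i).Prime := fun i => ⟨(C i).prime⟩
  have hA0 : ∀ i, 0 < A i := fun i => lt_of_lt_of_le (by norm_num) (hA i)
  -- the residues `q i k`
  let q : ι → Fin (B + 1) → ℤ := fun i k => A i * B + 1 - (k : ℕ)
  have hq1 : ∀ i k, 0 < q i k ∧ A i * q i k < N i := by
    intro i k
    have h1 : ((k : ℕ) : ℤ) ≤ B := by exact_mod_cast Nat.lt_succ_iff.1 k.2
    have h2 : (2 : ℤ) ≤ A i := by exact_mod_cast hA i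
    have h3 : (A i : ℤ) ^ 2 * B + A i < N i := by exact_mod_cast hN i
    have h4 : (0 : ℤ) ≤ (k : ℕ) := by positivity
    simp only [q]
    constructor
    · nlinarith
    · nlinarith
  have hsmall : ∀ i (z : ℤ), 0 < z → A i * z < N i → ((z : ℤ) : ZMod (N i)) ≠ 0 := by
    intro i z h1 h2 h3
    rw [ZMod.intCast_zmod_eq_zero_iff_dvd] at h3
    have h4 := Int.le_of_dvd h1 h3
    have h5 : (1 : ℤ) ≤ A i := by exact_mod_cast hA0 i
    nlinarith
  have hq0 : ∀ i k, ((q i k : ℤ) : ZMod (N i)) ≠ 0 := fun i k =>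
    hsmall i _ (hq1 i k).1 (hq1 i k).2
  -- the elements of the group
  choose s hs using fun k : Fin (B + 1) => hc T fun i =>
    if h : (τ i).1 = 0 then 1 else Units.mk0 (((q i k : ℤ) : ZMod (N i)) / (τ i).1)
      (div_ne_zero (hq0 i k) h)
  have hs' : ∀ k, ∀ i ∈ T, (τ i).1 ≠ 0 →
      (c i (s k) : ZMod (N i)) * (τ i).1 = ((q i k : ℤ) : ZMod (N i)) := by
    intro k i hi h
    rw [hs k i hi, dif_neg h, Units.val_mk0, div_mul_cancel₀ _ h]
  have htyp0 : ∀ g i, (τ i).1 = 0 → (actTy c g τ i).1 = 0 := by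
    intro g i h6
    change (c i g : ZMod (N i)) * (τ i).1 = _
    rw [h6, mul_zero]
  have htyp1 : ∀ k, ∀ i ∈ T, (τ i).1 ≠ 0 →
      (actTy c (s k * 1) τ i).1 = ((q i k : ℤ) : ZMod (N i)) := by
    intro k i hi h
    rw [mul_one]
    exact hs' k i hi h
  -- the vectors
  let u : Fin (B + 1) → W.H Z.X := fun k => Z.act (s k)⁻¹ (φ y)
  have hu : ∀ k, u k ≠ 0 := by
    intro k h5
    apply hne
    have h6 := congrArg (Z.act (s k)) h5
    rw [map_zero] at h6
    change Z.act (s k) (Z.act (s k)⁻¹ (φ y)) = 0 at h6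
    rwa [act_act_inv] at h6
  have huV : ∀ k, u k ∈ valSp Q τ y (s k) := fun k =>
    mem_valSp.2 ⟨φ, Submodule.subset_span hφ, rfl⟩
  -- the degrees
  have hdeg : ∀ i ∈ T, (τ i).1 ≠ 0 → (τ i).2 = (X i).X.dim := by
    intro i hi h6
    by_contra h7
    let lam : ι → W.K := fun a => if (τ a).1 = 0 then ((τ a).2 : W.K) / 2 else ((X a).X.dim : W.K)
    have h8 : ∀ mu : W.K, ∀ a ∈ T, (C a).HasW (actTy c (s 0 * 1) τ a).1
        (actTy c (s 0 * 1) τ a).2 (if a = i then mu else lam a) := by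
      intro mu a ha
      by_cases h9 : (τ a).1 = 0
      · have h10 : a ≠ i := fun h => h6 (h ▸ h9)
        rw [if_neg h10, htyp0 _ a h9]
        simp only [lam, if_pos h9]
        exact (C a).hasW_zero hD _
      · rw [htyp1 _ a ha h9]
        have h13 := (C a).hasW_low (hA0 a) (hq1 a 0).1 (hq1 a 0).2 (τ a).2
        by_cases h10 : a = i
        · rw [if_pos h10]
          exact h13.2 (by rw [h10]; exact h7) mu
        · rw [if_neg h10]
          simp only [lam, if_neg h9]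
          exact h13.1
    have h9 := (conjW_scalar Q hD hy τ (s 0) 1 _ (h8 0) (huV 0)).symm.trans
      (conjW_scalar Q hD hy τ (s 0) 1 _ (h8 1) (huV 0))
    have h10 := smul_left_injective W.K (hu 0) h9
    have h11 : ∀ mu : W.K, ∑ a ∈ T, (if a = i then mu else lam a) =
        ∑ a ∈ T.erase i, lam a + mu := by
      intro mu
      rw [← Finset.sum_erase_add T _ hi, if_pos rfl]
      congr 1
      exact sum_congr rfl fun a ha => if_neg (ne_of_mem_erase ha)
    rw [sub_right_inj, h11, h11, add_right_inj] at h10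
    exact zero_ne_one h10
  -- the eigenvalues
  let lam : Bool → ι → W.K := fun β i =>
    if (τ i).1 = 0 then ((τ i).2 : W.K) / 2 else if β then ((X i).X.dim : W.K) else 0
  let α : Bool → W.K := fun β => (w : W.K) - ∑ i ∈ T, lam β i
  have hlow : ∀ k t, (∀ i ∈ T, (τ i).1 ≠ 0 → ∃ r : ℤ, 0 < r ∧ A i * r < N i ∧
      (actTy c (s k * t) τ i).1 = (r : ZMod (N i))) → ∀ x ∈ valSp Q τ y (s k),
      conjW D Z t x = α true • x := by
    intro k t h x hx
    refine conjW_scalar Q hD hy τ (s k) t (lam true) (fun i hi => ?_) hx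
    by_cases h6 : (τ i).1 = 0
    · rw [htyp0 _ i h6]
      simp only [lam, if_pos h6]
      exact (C i).hasW_zero hD _
    · obtain ⟨r, h9, h10, h11⟩ := h i hi h6
      rw [h11]
      simp only [lam, if_neg h6, if_true]
      exact ((C i).hasW_low (hA0 i) h9 h10 _).1
  have hhigh : ∀ k t, (∀ i ∈ T, (τ i).1 ≠ 0 → ∃ r : ℤ, r < 0 ∧ -(N i : ℤ) < A i * r ∧
      (actTy c (s k * t) τ i).1 = (r : ZMod (N i))) → ∀ x ∈ valSp Q τ y (s k),
      conjW D Z t x = α false • x := by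
    intro k t h x hx
    refine conjW_scalar Q hD hy τ (s k) t (lam false) (fun i hi => ?_) hx
    by_cases h6 : (τ i).1 = 0
    · rw [htyp0 _ i h6]
      simp only [lam, if_pos h6]
      exact (C i).hasW_zero hD _
    · obtain ⟨r, h9, h10, h11⟩ := h i hi h6
      rw [h11]
      simp only [lam, if_neg h6, Bool.false_eq_true, if_false]
      exact (C i).hasW_high (hA0 i) h9 h10 _
  -- the difference of the types
  let E : ℕ := ∑ i ∈ T, if (τ i).1 = 0 then 0 else (X i).X.dim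
  have hE : ν ≤ E := by
    obtain ⟨i, hiT, hi⟩ := hτ
    refine le_trans (hX i) ?_
    have h1 := Finset.single_le_sum (f := fun i => if (τ i).1 = 0 then 0 else (X i).X.dim)
      (fun _ _ => Nat.zero_le _) hiT
    simp only [if_neg hi] at h1
    exact h1
  have hsum : ((b : W.K) + ∑ i ∈ T, ((τ i).2 : W.K)) = 2 * w := by
    have h1 : (b : ℤ) + ∑ i ∈ T, ((τ i).2 : ℤ) = 2 * w := by
      rw [← hb]
      push_cast
      ring
    exact_mod_cast congrArg (fun z : ℤ => (z : W.K)) h1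
  have hα : α true - α false ≠ 0 := by
    have h3 : ∑ i ∈ T, lam true i = ∑ i ∈ T, lam false i + (E : W.K) := by
      simp only [E, Nat.cast_sum]
      rw [← sum_add_distrib]
      refine sum_congr rfl fun i _ => ?_
      by_cases h4 : (τ i).1 = 0
      · simp only [lam, if_pos h4, Nat.cast_zero, add_zero]
      · simp only [lam, if_neg h4, if_true, Bool.false_eq_true, if_false, zero_add]
    have h4 : α true - α false = -(E : W.K) := by
      simp only [α]
      rw [h3]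
      ring
    rw [h4, neg_ne_zero, Nat.cast_ne_zero]
    omega
  have hα2 : 2 * α true = (b : W.K) - E := by
    have h3 : 2 * ∑ i ∈ T, lam true i = ∑ i ∈ T, ((τ i).2 : W.K) + (E : W.K) := by
      simp only [E, Nat.cast_sum]
      rw [← sum_add_distrib, mul_sum]
      refine sum_congr rfl fun i hi => ?_
      by_cases h4 : (τ i).1 = 0
      · simp only [lam, if_pos h4, Nat.cast_zero, add_zero]
        field_simp
      · simp only [lam, if_neg h4, if_true]
        rw [hdeg i hi h4]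
        ring
    change 2 * ((w : W.K) - ∑ i ∈ T, lam true i) = _
    rw [mul_sub, h3, ← hsum]
    ring
  -- the separating elements
  have hsep : ∀ k l : Fin (B + 1), k ≠ l → ∃ t : Γ,
      (∀ x ∈ valSp Q τ y (s k), conjW D Z t x = α true • x) ∧
      ∀ x ∈ valSp Q τ y (s l), conjW D Z t x = α false • x := by
    intro k l hkl
    have h1 : ∀ i, ∃ x z : ℤ, 0 < x ∧ A i * x < N i ∧ z < 0 ∧ -(N i : ℤ) < A i * z ∧
        (N i : ℤ) ∣ z * q i k - x * q i l := fun i =>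
      exists_sep (C i).prime (hA i) (hN i) (Nat.lt_succ_iff.1 k.2) (Nat.lt_succ_iff.1 l.2)
        fun h => hkl (Fin.ext h)
    choose x z hx0 hx1 hz0 hz1 hd using h1
    obtain ⟨t, ht⟩ := hc T fun i => Units.mk0 (((x i : ℤ) : ZMod (N i)) / ((q i k : ℤ) : ZMod (N i)))
      (div_ne_zero (hsmall i _ (hx0 i) (hx1 i)) (hq0 i k))
    refine ⟨t, hlow k t fun i hi h => ⟨x i, hx0 i, hx1 i, ?_⟩,
      hhigh l t fun i hi h => ⟨z i, hz0 i, hz1 i, ?_⟩⟩
    · change (c i (s k * t) : ZMod (N i)) * (τ i).1 = _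
      rw [map_mul, Units.val_mul, ht i hi, Units.val_mk0, mul_right_comm, hs' k i hi h]
      field_simp [hq0 i k]
    · change (c i (s l * t) : ZMod (N i)) * (τ i).1 = _
      rw [map_mul, Units.val_mul, ht i hi, Units.val_mk0, mul_right_comm, hs' l i hi h]
      have h2 : ((z i : ℤ) : ZMod (N i)) * ((q i k : ℤ) : ZMod (N i)) =
          ((x i : ℤ) : ZMod (N i)) * ((q i l : ℤ) : ZMod (N i)) := by
        have h3 := (ZMod.intCast_zmod_eq_zero_iff_dvd _ _).2 (hd i)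
        push_cast at h3
        exact sub_eq_zero.1 h3
      rw [mul_div_assoc', mul_comm, ← h2, mul_div_assoc, div_self (hq0 i k), mul_one]
  -- the operators
  choose t ht1 ht0 using hsep
  let P : Fin (B + 1) → Fin (B + 1) → Module.End W.K (W.H Z.X) := fun k l =>
    if h : k ≠ l then (α true - α false)⁻¹ • (conjW D Z (t k l h) - α false • LinearMap.id) else 0
  have hli := indep_of_pairs (fun k => valSp Q τ y (s k)) u huV hu P
    (fun k l h x hx => by
      simp only [P, dif_pos h]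
      rw [LinearMap.smul_apply, LinearMap.sub_apply, ht1 k l h x hx, LinearMap.smul_apply,
        LinearMap.id_apply, ← sub_smul, smul_smul, inv_mul_cancel₀ hα, one_smul])
    (fun k l h x hx => by
      simp only [P, dif_pos h]
      rw [LinearMap.smul_apply, LinearMap.sub_apply, ht0 k l h x hx, LinearMap.smul_apply,
        LinearMap.id_apply, sub_self, smul_zero])
    (fun k l m h x hx => by
      simp only [P, dif_pos h]
      rw [LinearMap.smul_apply, LinearMap.sub_apply, LinearMap.smul_apply, LinearMap.id_apply]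
      exact Submodule.smul_mem _ _ (Submodule.sub_mem _ (conjW_mem Q hD hy τ (s m) _ hx)
        (Submodule.smul_mem _ _ hx)))
  -- the contradiction
  have hmem : ∀ k, u k ∈ hodgePart D Z b E := by
    intro k
    refine Submodule.mem_inf.2 ⟨hZ.gr_mem _ _ _ hgr, LinearMap.mem_ker.2 ?_⟩
    have h5 := hlow k 1 (fun i hi h => ⟨q i k, (hq1 i k).1, (hq1 i k).2, htyp1 k i hi h⟩) _ (huV k)
    have h6 : conjW D Z 1 = weight D Z := by
      rw [conjW, inv_one, map_one]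
      rfl
    rw [h6] at h5
    change (2 : W.K) • weight D Z (u k) - ((b : W.K) - E) • u k = 0
    rw [h5, smul_smul, hα2, sub_self]
  have h2 : LinearIndependent W.K fun k => (⟨u k, hmem k⟩ : hodgePart D Z b E) := by
    apply LinearIndependent.of_comp (hodgePart D Z b E).subtype
    exact hli
  have h3 := h2.fintype_card_le_finrank
  rw [Fintype.card_fin] at h3
  have h4 := hB b E hE
  rw [hodgeNumber] at h4
  omega

end Pool.Agent.U231.LP
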