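import Mathlib

/-!
# Cyclic coverings of large prime degree: operators of finite order
-/

set_option autoImplicit false

open Finset

namespace Pool.Agent.U231.LP

variable {K V : Type*} [Field K] [AddCommGroup V] [Module K V]

/-- the projector onto the eigenspace of `s` with the eigenvalue `ζ ^ j` -/
noncomputable def ep (s : Module.End K V) (N : ℕ) (ζ : K) (j : ℕ) : Module.End K V :=
  (N : K)⁻¹ • ∑ m ∈ range N, ((ζ ^ j) ^ m)⁻¹ • s ^ m

variable {s : Module.End K V} {N : ℕ} {ζ : K}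

theorem mul_ep (hs : s ^ N = 1) (hζ : ζ ^ N = 1) (hN : 0 < N) (j : ℕ) :
    s * ep s N ζ j = ζ ^ j • ep s N ζ j := by
  have hζ0 : ζ ≠ 0 := by
    rintro rfl
    rw [zero_pow hN.ne'] at hζ
    exact zero_ne_one hζ
  have hj : ζ ^ j ≠ 0 := pow_ne_zero _ hζ0
  have h1 : ∀ m, s * (((ζ ^ j) ^ m)⁻¹ • s ^ m) =
      ζ ^ j • (((ζ ^ j) ^ (m + 1))⁻¹ • s ^ (m + 1)) := by
    intro m
    rw [mul_smul_comm, ← pow_succ', smul_smul, pow_succ (ζ ^ j)]
    congr 1
    field_simp
  rw [ep, mul_smul_comm, smul_comm (ζ ^ j)]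
  congr 1
  rw [mul_sum, smul_sum, sum_congr rfl fun m _ => h1 m]
  have h2 := sum_range_succ (fun m => ζ ^ j • (((ζ ^ j) ^ m)⁻¹ • s ^ m)) N
  rw [sum_range_succ'] at h2
  have h3 : (ζ ^ j) ^ N = 1 := by rw [← pow_mul, mul_comm, pow_mul, hζ, one_pow]
  rw [hs, h3, pow_zero, pow_zero] at h2
  exact add_right_cancel h2

theorem ep_of_eig [CharZero K] (hζ : ζ ≠ 0) (hN : 0 < N) {j : ℕ} {x : V} (hx : s x = ζ ^ j • x) :
    ep s N ζ j x = x := by
  have h1 : ∀ m, (s ^ m) x = (ζ ^ j) ^ m • x := by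
    intro m
    induction m with
    | zero => simp
    | succ m ih => rw [pow_succ, Module.End.mul_apply, hx, map_smul, ih, smul_smul, pow_succ']
  have hN0 : (N : K) ≠ 0 := by exact_mod_cast hN.ne'
  rw [ep, LinearMap.smul_apply, LinearMap.sum_apply]
  rw [sum_congr rfl fun m _ => by
    rw [LinearMap.smul_apply, h1, smul_smul, inv_mul_cancel₀ (pow_ne_zero _ (pow_ne_zero _ hζ)),
      one_smul]]
  rw [sum_const, card_range, ← Nat.cast_smul_eq_nsmul K, smul_smul, inv_mul_cancel₀ hN0, one_smul]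

theorem comp_ep [CharZero K] (hζ : ζ ≠ 0) (hN : 0 < N) {j : ℕ} {f : V →ₗ[K] K}
    (hf : ∀ x, f (s x) = ζ ^ j * f x) (x : V) : f (ep s N ζ j x) = f x := by
  have h1 : ∀ m, f ((s ^ m) x) = (ζ ^ j) ^ m * f x := by
    intro m
    induction m with
    | zero => simp
    | succ m ih => rw [pow_succ', Module.End.mul_apply, hf, ih, pow_succ']; ring
  have hN0 : (N : K) ≠ 0 := by exact_mod_cast hN.ne'
  rw [ep, LinearMap.smul_apply, LinearMap.sum_apply, map_smul, map_sum]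
  rw [sum_congr rfl fun m _ => by
    rw [LinearMap.smul_apply, map_smul, h1, smul_eq_mul, ← mul_assoc,
      inv_mul_cancel₀ (pow_ne_zero _ (pow_ne_zero _ hζ)), one_mul]]
  rw [sum_const, card_range, nsmul_eq_mul, smul_eq_mul, ← mul_assoc, inv_mul_cancel₀ hN0, one_mul]

theorem ep_comm {t : Module.End K V} (h : s * t = t * s) (j : ℕ) :
    ep s N ζ j * t = t * ep s N ζ j := by
  have h1 : ∀ m, s ^ m * t = t * s ^ m := fun m => by
    have h2 : Commute s t := h
    exact h2.pow_left m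
  rw [ep, smul_mul_assoc, mul_smul_comm, sum_mul, mul_sum]
  congr 1
  refine sum_congr rfl fun m _ => ?_
  rw [smul_mul_assoc, mul_smul_comm, h1]

theorem sum_ep [CharZero K] (hζ : IsPrimitiveRoot ζ N) (hN : 0 < N) :
    ∑ j ∈ range N, ep s N ζ j = 1 := by
  have hζ0 : ζ ≠ 0 := hζ.ne_zero hN.ne'
  have hN0 : (N : K) ≠ 0 := by exact_mod_cast hN.ne'
  simp only [ep]
  rw [← smul_sum, sum_comm]
  have h1 : ∀ m ∈ range N, ∑ j ∈ range N, ((ζ ^ j) ^ m)⁻¹ • s ^ m =
      if m = 0 then (N : K) • (1 : Module.End K V) else 0 := by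
    intro m hm
    rw [← sum_smul]
    split_ifs with h
    · subst h
      simp
    · have h2 : ζ ^ m ≠ 1 := hζ.pow_ne_one_of_pos_of_lt h (mem_range.1 hm)
      have h3 : ∀ j, ((ζ ^ j) ^ m)⁻¹ = ((ζ ^ m)⁻¹) ^ j := by
        intro j
        rw [← pow_mul, mul_comm, pow_mul, inv_pow]
      rw [sum_congr rfl fun j _ => h3 j]
      have h4 := mul_geom_sum ((ζ ^ m)⁻¹) N
      have h5 : ((ζ ^ m)⁻¹) ^ N = 1 := by
        rw [inv_pow, ← pow_mul, mul_comm, pow_mul, hζ.pow_eq_one, one_pow, inv_one]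
      rw [h5, sub_self] at h4
      rcases mul_eq_zero.1 h4 with h6 | h6
      · exfalso
        apply h2
        rw [sub_eq_zero, inv_eq_one] at h6
        exact h6
      · rw [h6, zero_smul]
  rw [sum_congr rfl h1, sum_ite_eq' (range N) 0, if_pos (mem_range.2 hN), smul_smul,
    inv_mul_cancel₀ hN0, one_smul]

end Pool.Agent.U231.LP
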