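import Pool.Agent.U231.LP.Fun

/-!
# Cyclic coverings of large prime degree: the decomposition of invariant Tate classes
-/

set_option autoImplicit false

open CategoryTheory AlgebraicGeometry Finset

universe u

namespace Pool.Agent.U231.LP

open Pool.Agent.Y95.ZT.S Pool.Agent.H914 Pool.Agent.H914.VarClass Pool.Agent.H914.VarClass.Obj
  Pool.Agent.H914.WeilCohomology Pool.Agent.H281R3.HT Pool.Agent.TH125.Gal

variable {k : Type u} [Field k] {𝒱 : VarClass k} {ops : CycleOps 𝒱}
  {W : WeilCohomology.{u, 0} ops} {Γ : Type} [Group Γ]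

/-- dual functionals of an independent family -/
theorem exists_dual {K V : Type*} [Field K] [AddCommGroup V] [Module K V] {κ : Type*}
    [DecidableEq κ] {a : κ → V} (h : LinearIndependent K a) :
    ∃ F : κ → (V →ₗ[K] K), ∀ i j, F i (a j) = if i = j then 1 else 0 := by
  let B := Module.Basis.span h
  have h1 : ∀ i, ∃ F : V →ₗ[K] K, F ∘ₗ (Submodule.span K (Set.range a)).subtype = B.coord i :=
    fun i => LinearMap.exists_extend _
  choose F hF using h1
  refine ⟨F, fun i j => ?_⟩
  have h2 : a j = (Submodule.span K (Set.range a)).subtype (B j) := by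
    rw [Submodule.subtype_apply, Module.Basis.span_apply]
  rw [h2, ← LinearMap.comp_apply, hF, Module.Basis.coord_apply, Module.Basis.repr_self,
    Finsupp.single_apply]
  simp only [eq_comm]

namespace CData

variable {D : WeightData W.K Γ} {N A : ℕ} {c : Γ →* (ZMod N)ˣ} {X : GVar W Γ}

/-- the invariant classes are spanned by invariant algebraic classes -/
theorem inv_span (C : CData D N A c X) {x : W.H X.X} (hx : C.S x = x) :
    x ∈ Submodule.span W.K {a | C.S a = a ∧ ∃ j, a ∈ algClasses W X.X j} := by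
  have hN := C.prime.pos
  have h1 : ∀ y ∈ algSpan W X.X, ep C.S N C.ζ 0 y ∈
      Submodule.span W.K {a | C.S a = a ∧ ∃ j, a ∈ algClasses W X.X j} := by
    intro y hy
    induction hy using Submodule.span_induction with
    | mem y hy =>
      obtain ⟨j, hj⟩ := Set.mem_iUnion.1 hy
      refine Submodule.subset_span ⟨?_, j, ?_⟩
      · have h3 := congrArg (fun F : Module.End W.K (W.H X.X) => F y)
          (mul_ep C.S_pow C.root.pow_eq_one hN 0)
        change C.S (ep C.S N C.ζ 0 y) = C.ζ ^ 0 • ep C.S N C.ζ 0 y at h3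
        rwa [pow_zero, one_smul] at h3
      · have h4 : ∀ m, (C.S ^ m) y ∈ algClasses W X.X j := by
          intro m
          induction m with
          | zero => exact hj
          | succ m ih =>
            rw [pow_succ', Module.End.mul_apply]
            exact alg_map C.σ ih
        have h5 : ∀ M : ℕ, ∑ m ∈ range M, (C.S ^ m) y ∈ algClasses W X.X j := by
          intro M
          induction M with
          | zero => rw [sum_range_zero]; exact alg_zero j
          | succ M ih => rw [sum_range_succ]; exact alg_add ih (h4 M)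
        have h6 : ep C.S N C.ζ 0 y = (((N : ℚ)⁻¹ : ℚ) : W.K) • ∑ m ∈ range N, (C.S ^ m) y := by
          rw [ep, LinearMap.smul_apply, LinearMap.sum_apply]
          simp
        rw [h6]
        exact alg_smul _ (h5 N)
    | zero => rw [map_zero]; exact Submodule.zero_mem _
    | add y z _ _ hy hz => rw [map_add]; exact Submodule.add_mem _ hy hz
    | smul q y _ hy => rw [map_smul]; exact Submodule.smul_mem _ _ hy
  have h2 : ep C.S N C.ζ 0 x = x := ep_of_eig C.ζ_ne hN (by rw [pow_zero, one_smul, hx])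
  rw [← h2]
  exact h1 x (C.inv x hx)

variable {Y : GVar W Γ} {υ : Γ →* (W.H (X.X.prod Y.X) ≃ₐ[W.K] W.H (X.X.prod Y.X))}

/-- **The decomposition of Tate classes without components for nontrivial characters.** -/
theorem decompose (C : CData D N A c X)
    (h1 : Intertwines (W.map (fst X.X Y.X)) X.act υ)
    (h2 : Intertwines (W.map (snd X.X Y.X)) Y.act υ) {w : ℕ} {y : W.H (X.X.prod Y.X)}
    (hy : IsTateClass D ⟨X.X.prod Y.X, υ⟩ w y)
    (h : ∀ t, t ≠ 0 → ∀ d f, C.IsFn t d f → ctr f y = 0) :
    ∃ (κ : Type) (_ : Fintype κ) (a : κ → W.H X.X) (j : κ → ℕ) (z : κ → W.H Y.X)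
      (f : κ → (W.H X.X →ₗ[W.K] W.K)),
      y = ∑ r, W.map (fst X.X Y.X) (a r) * W.map (snd X.X Y.X) (z r) ∧
      (∀ r, a r ∈ algClasses W X.X (j r)) ∧ (∀ r, ∃ m, IsTateClass D Y m (z r)) ∧
      (∀ r, C.IsFn 0 (2 * j r) (f r)) ∧ ∀ r, z r = ctr (f r) y := by
  classical
  have hN := C.prime.pos
  -- the component of the trivial character
  have e1 : ∀ F : W.H X.X →ₗ[W.K] W.K, ctr F y = ctr (F ∘ₗ ep C.S N C.ζ 0) y := by
    intro F
    have h3 : ∀ j ∈ range N, j ≠ 0 → ∑ d ∈ range (2 * X.X.dim + 1),
        ctr (F ∘ₗ ep C.S N C.ζ j ∘ₗ proj (W.isInternal X.X) d) y = 0 := by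
      intro j hj hj0
      refine sum_eq_zero fun d _ => ?_
      have h4 := C.isFn_ep F (j : ZMod N) d
      rw [ZMod.val_natCast, Nat.mod_eq_of_lt (mem_range.1 hj)] at h4
      refine h _ (fun h5 => hj0 ?_) _ _ h4
      rw [ZMod.natCast_eq_zero_iff] at h5
      exact Nat.eq_zero_of_dvd_of_lt h5 (mem_range.1 hj)
    have h5 : ∀ G : W.H X.X →ₗ[W.K] W.K, ctr G y = ∑ d ∈ range (2 * X.X.dim + 1),
        ctr (G ∘ₗ proj (W.isInternal X.X) d) y := by
      intro G
      rw [← ctr_sum]
      have h7 : G = ∑ d ∈ range (2 * X.X.dim + 1), G ∘ₗ proj (W.isInternal X.X) d := by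
        apply LinearMap.ext
        intro x
        have h6 := congrArg (fun H : Module.End W.K (W.H X.X) => G (H x))
          (sum_proj (W.isInternal X.X) (N := 2 * X.X.dim + 1)
            (fun i hi => W.gr_eq_bot X.X i (by omega)))
        simp only [LinearMap.sum_apply, Module.End.one_apply, map_sum] at h6
        rw [LinearMap.sum_apply]
        exact h6.symm
      exact congrArg (fun G => ctr G y) h7
    conv_lhs => rw [C.fun_eq_sum F, ctr_sum]
    rw [sum_congr rfl fun j _ => ctr_sum _ _ y]
    rw [sum_eq_single 0 h3 (fun h6 => absurd (mem_range.2 hN) h6), h5]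
    rfl
  -- the independent algebraic classes
  obtain ⟨b, hb1, hb2, hb3⟩ := exists_linearIndependent W.K
    {a : W.H X.X | C.S a = a ∧ ∃ j, a ∈ algClasses W X.X j}
  have hbf : Fintype b := by
    have : b.Finite := hb3.setFinite
    exact this.fintype
  have hinv : ∀ a : b, C.S a = a := fun a => (hb1 a.2).1
  choose j hj using fun a : b => (hb1 a.2).2
  obtain ⟨F, hF⟩ := exists_dual hb3
  -- the expansion
  obtain ⟨z, hz⟩ : ∃ z : b → W.H Y.X, y = ∑ r : b, W.map (fst X.X Y.X) (r : W.H X.X) *
      W.map (snd X.X Y.X) (z r) := by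
    let B := Module.finBasis W.K (W.H X.X)
    have h3 : y = ∑ r, W.map (fst X.X Y.X) (ep C.S N C.ζ 0 (B r)) *
        W.map (snd X.X Y.X) (ctr (B.coord r) y) := by
      have h4 : y = ∑ r, W.map (fst X.X Y.X) (B r) *
          W.map (snd X.X Y.X) (ctr (B.coord r ∘ₗ ep C.S N C.ζ 0) y) := by
        conv_lhs => rw [expand B y]
        exact sum_congr rfl fun r _ => by rw [← e1]
      have h5 : ∀ y : W.H (X.X.prod Y.X), ∑ r, W.map (fst X.X Y.X) (B r) *
          W.map (snd X.X Y.X) (ctr (B.coord r ∘ₗ ep C.S N C.ζ 0) y) =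
          ∑ r, W.map (fst X.X Y.X) (ep C.S N C.ζ 0 (B r)) *
            W.map (snd X.X Y.X) (ctr (B.coord r) y) := by
        intro y
        refine kun_ext (L := fun y => ∑ r, W.map (fst X.X Y.X) (B r) *
          W.map (snd X.X Y.X) (ctr (B.coord r ∘ₗ ep C.S N C.ζ 0) y)) (L' := fun y =>
          ∑ r, W.map (fst X.X Y.X) (ep C.S N C.ζ 0 (B r)) *
            W.map (snd X.X Y.X) (ctr (B.coord r) y)) ?_ ?_ ?_ y
        · intro a a'
          simp only [map_add, mul_add, sum_add_distrib]
        · intro a a'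
          simp only [map_add, mul_add, sum_add_distrib]
        · intro a z
          simp only [ctr_apply, map_smul, mul_smul_comm, ← smul_mul_assoc, ← sum_mul]
          congr 1
          have e2 : ∀ x : W.H X.X, ∑ r, B.coord r x • W.map (fst X.X Y.X) (B r) =
              W.map (fst X.X Y.X) x := by
            intro x
            rw [← sum_congr rfl fun r _ => map_smul (W.map (fst X.X Y.X)) (B.coord r x) (B r),
              ← map_sum]
            congr 1
            exact B.sum_repr x
          have e3 : ∑ r, B.coord r a • W.map (fst X.X Y.X) (ep C.S N C.ζ 0 (B r)) =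
              W.map (fst X.X Y.X) (ep C.S N C.ζ 0 a) := by
            rw [← sum_congr rfl fun r _ => map_smul (W.map (fst X.X Y.X)) (B.coord r a) _,
              ← map_sum]
            congr 1
            rw [← sum_congr rfl fun r _ => map_smul (ep C.S N C.ζ 0) (B.coord r a) (B r),
              ← map_sum]
            congr 1
            exact B.sum_repr a
          rw [e3]
          exact e2 (ep C.S N C.ζ 0 a)
      exact h4.trans (h5 y)
    have h4 : ∀ x, ep C.S N C.ζ 0 x ∈ Submodule.span W.K (Set.range ((↑) : b → W.H X.X)) := by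
      intro x
      rw [Subtype.range_coe, hb2]
      apply C.inv_span
      have h5 := congrArg (fun F : Module.End W.K (W.H X.X) => F x)
        (mul_ep C.S_pow C.root.pow_eq_one hN 0)
      change C.S (ep C.S N C.ζ 0 x) = C.ζ ^ 0 • ep C.S N C.ζ 0 x at h5
      rwa [pow_zero, one_smul] at h5
    choose γ hγ using fun x => (Submodule.mem_span_range_iff_exists_fun W.K).1 (h4 x)
    refine ⟨fun r => ∑ r', γ (B r') r • ctr (B.coord r') y, ?_⟩
    conv_lhs => rw [h3]
    simp only [map_sum, map_smul, mul_sum, mul_smul_comm]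
    rw [sum_comm]
    refine sum_congr rfl fun r' _ => ?_
    rw [← hγ (B r'), map_sum, sum_mul]
    refine sum_congr rfl fun r _ => ?_
    rw [map_smul, smul_mul_assoc]
  have hz1 : ∀ r, ctr (F r) y = z r := by
    intro r
    conv_lhs => rw [hz, map_sum]
    simp only [ctr_apply, hF, ite_smul, one_smul, zero_smul, sum_ite_eq, mem_univ, if_true]
  let f : b → (W.H X.X →ₗ[W.K] W.K) := fun r =>
    F r ∘ₗ ep C.S N C.ζ (0 : ZMod N).val ∘ₗ proj (W.isInternal X.X) (2 * j r)
  have hf : ∀ r, C.IsFn 0 (2 * j r) (f r) := fun r => C.isFn_ep (F r) 0 (2 * j r)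
  have hz2 : ∀ r, z r = ctr (f r) y := by
    intro r
    conv_rhs => rw [hz, map_sum]
    have h3 : ∀ r' : b, f r (r' : W.H X.X) = if r = r' then 1 else 0 := by
      intro r'
      change F r (ep C.S N C.ζ (0 : ZMod N).val (proj (W.isInternal X.X) (2 * j r) r')) = _
      by_cases h4 : j r = j r'
      · rw [h4, proj_same _ (alg_gr (hj r')), ZMod.val_zero,
          ep_of_eig C.ζ_ne hN (by rw [pow_zero, one_smul, hinv]), hF]
      · have h5 : r ≠ r' := fun h6 => h4 (by rw [h6])
        rw [proj_ne _ (alg_gr (hj r')) (by omega), map_zero, map_zero, if_neg h5]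
    simp only [ctr_apply, h3, ite_smul, one_smul, zero_smul, sum_ite_eq, mem_univ, if_true]
  refine ⟨b, hbf, fun r => r, j, z, f, hz, hj, fun r => ?_, hf, hz2⟩
  -- the coefficients are Tate classes
  obtain ⟨hy1, Δ, hΔ, hy2⟩ := hy
  have hgr : z r ∈ grZ (W.gr Y.X) (((2 * w : ℕ) : ℤ) - (2 * j r : ℕ)) := by
    rw [hz2 r]
    exact ctr_gr (hf r).2 hy1
  by_cases hjw : j r ≤ w
  · refine ⟨w - j r, ?_, ?_⟩
    · rw [show ((2 * w : ℕ) : ℤ) - (2 * j r : ℕ) = ((2 * (w - j r) : ℕ) : ℤ) by omega,
        grZ_natCast] at hgr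
      exact hgr
    · choose Δ' hΔ' hfix using fun r' : b => C.galois.cl_fix (j r') r' (hj r')
      have hfi : (Δ ⊓ ⨅ r', Δ' r').FiniteIndex := by
        have : (⨅ r', Δ' r').FiniteIndex := Subgroup.finiteIndex_iInf fun r' => hΔ' r'
        infer_instance
      refine ⟨Δ ⊓ ⨅ r', Δ' r', hfi, fun g hg => ?_⟩
      have hg2 := fun r' => hfix r' g ((Subgroup.mem_iInf.1 hg.2) r')
      have h3 : υ g y = (D.χ g : W.K) ^ w • y := hy2 g hg.1
      have h4 : ctr (F r) (υ g y) = (D.χ g : W.K) ^ j r • Y.act g (z r) := by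
        conv_lhs => rw [hz, map_sum, map_sum]
        rw [sum_eq_single r]
        · rw [map_mul (υ g), h1, h2, hg2, map_smul, smul_mul_assoc, map_smul, ctr_apply, hF,
            if_pos rfl, one_smul]
        · intro r' _ hr'
          rw [map_mul (υ g), h1, h2, hg2, map_smul, smul_mul_assoc, map_smul, ctr_apply, hF,
            if_neg (Ne.symm hr'), zero_smul, smul_zero]
        · intro h5
          exact absurd (mem_univ _) h5
      rw [h3, map_smul, hz1] at h4
      have h5 : (D.χ g : W.K) ^ j r ≠ 0 := pow_ne_zero _ (Units.ne_zero _)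
      have h6 : (D.χ g : W.K) ^ w = (D.χ g : W.K) ^ j r * (D.χ g : W.K) ^ (w - j r) := by
        rw [← pow_add, Nat.add_sub_cancel' hjw]
      rw [h6, mul_smul] at h4
      exact (smul_right_injective _ h5 h4).symm
  · rw [grZ_of_neg (by omega), Submodule.mem_bot] at hgr
    refine ⟨0, ?_, ⊤, inferInstance, fun g _ => ?_⟩
    · rw [hgr]; exact Submodule.zero_mem _
    · rw [hgr, map_zero, smul_zero]

end CData

end Pool.Agent.U231.LP
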