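import Pool.Agent.Y95.ZT.SDefs

/-!
# Cyclic coverings of large prime degree: definitions
-/

set_option autoImplicit false

open CategoryTheory AlgebraicGeometry

universe u

namespace Pool.Agent.U231.LP

open Pool.Agent.Y95.ZT.S

section Alg

variable {K : Type} [Field K] {A : Type} [Ring A] [Algebra K A] [FiniteDimensional K A]
  {Γ : Type} [Group Γ]

/-- An action on an algebra as a representation. -/
def algRep (ρ : Γ →* (A ≃ₐ[K] A)) : Rp K Γ where
  V := A
  act := (AlgEquiv.toLinearMapHom K A).comp ρ

/-- The weight operator of the representation `A`. -/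
def algWeight (D : WeightData K Γ) (ρ : Γ →* (A ≃ₐ[K] A)) : Module.End K A := D.Θ (algRep ρ)

/-- A character as a representation. -/
def chi (χ : Γ →* Kˣ) : Rp K Γ where
  V := K
  act := ((algebraMap K (Module.End K K) : K →* Module.End K K).comp (Units.coeHom K)).comp χ

/-- The weight operator is normalized: the weight of the character `χ` is `1`. -/
def IsNormalized (D : WeightData K Γ) : Prop := D.Θ (chi D.χ) (1 : K) = (1 : K)

/-- The part of type `(p, q)` of `gr b`, where `p + q = b` and `q - p = e`: the weight operator is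
equal to `p = (b - e) / 2`. -/
def typePart (D : WeightData K Γ) (gr : ℕ → Submodule K A) (ρ : Γ →* (A ≃ₐ[K] A)) (b e : ℕ) :
    Submodule K A :=
  gr b ⊓ LinearMap.ker ((2 : K) • algWeight D ρ - ((b : K) - e) • LinearMap.id)

/-- The eigenspace of `s` with the eigenvalue `ζ` is contained in `U`, and there the weight operator
is equal to `m`. -/
def EigenType (D : WeightData K Γ) (ρ : Γ →* (A ≃ₐ[K] A)) (s : A →ₐ[K] A) (ζ : K)
    (U : Submodule K A) (m : ℕ) : Prop :=
  ∀ x, s x = ζ • x → x ∈ U ∧ algWeight D ρ x = (m : K) • x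

/-- The algebra `A` is the cohomology of a variety of dimension `n`, with the subspaces `gr i`, the
span `C` of the algebraic classes, the action `ρ`, and the endomorphism `s` of order `N` given by the
generator of the covering group. An element `g` of the Galois group transforms `s` into its power
with the exponent `c g`; the invariants of `s` are contained in `C`; and for `0 < j < N / a` the
eigenspaces of `s` with the eigenvalues `ζ ^ j` and `ζ ^ (-j)` are contained in `gr n`, with the weights
`n` and `0` (the types `(n, 0)` and `(0, n)`), for a root of unity `ζ` of order `N`. Nothing is assumed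
about the other eigenspaces. -/
structure IsCyclicAct (D : WeightData K Γ) (N a : ℕ) (c : Γ →* (ZMod N)ˣ)
    (gr : ℕ → Submodule K A) (n : ℕ) (C : Submodule K A) (ρ : Γ →* (A ≃ₐ[K] A)) (s : A →ₐ[K] A)
    (ζ : K) : Prop where
  root : IsPrimitiveRoot ζ N
  order : ∀ x, s^[N] x = x
  semi : ∀ g x, ρ g (s x) = s^[(c g : ZMod N).val] (ρ g x)
  inv : ∀ x, s x = x → x ∈ C
  low : ∀ j, 0 < j → a * j < N → EigenType D ρ s (ζ ^ j) (gr n) n
  high : ∀ j, 0 < j → a * j < N → EigenType D ρ s (ζ ^ (N - j)) (gr n) 0

/-- The element `c` of `gr (2 * j)` satisfies `ρ g c = χ g ^ j • c` for all `g` in a subgroup of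
finite index. -/
def IsTateElt (χ : Γ →* Kˣ) (gr : ℕ → Submodule K A) (ρ : Γ →* (A ≃ₐ[K] A)) (j : ℕ) (c : A) :
    Prop :=
  c ∈ gr (2 * j) ∧
    ∃ Δ : Subgroup Γ, Δ.FiniteIndex ∧ ∀ g ∈ Δ, ρ g c = (χ g : K) ^ j • c

end Alg

/-- The characters `c i` are independent: finitely many of them (with different indices) take
arbitrary prescribed values at some element of `Γ`. -/
def IsIndependent {Γ : Type} [Group Γ] {ι : Type} {N : ι → ℕ} (c : ∀ i, Γ →* (ZMod (N i))ˣ) :
    Prop :=
  ∀ (S : Finset ι) (t : ∀ i, (ZMod (N i))ˣ), ∃ g, ∀ i ∈ S, c i g = t i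

open Pool.Agent.H914 Pool.Agent.H914.VarClass Pool.Agent.H914.VarClass.Obj
  Pool.Agent.H914.WeilCohomology Pool.Agent.H281R3.HT Pool.Agent.TH125.Gal

variable {k : Type u} [Field k] {𝒱 : VarClass k} {ops : CycleOps 𝒱}
  {W : WeilCohomology.{u, 0} ops} {Γ : Type} [Group Γ]

/-- The weight operator of the cohomology of `Y`. -/
def weight (D : WeightData W.K Γ) (Y : GVar W Γ) : Module.End W.K (W.H Y.X) := algWeight D Y.act

/-- The part of `H^b(Z)` of type `(p, q)`, where `p + q = b` and `q - p = e`. -/
def hodgePart (D : WeightData W.K Γ) (Z : GVar W Γ) (b e : ℕ) : Submodule W.K (W.H Z.X) :=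
  typePart D (W.gr Z.X) Z.act b e

/-- The Hodge number `h^(p,q)` of `Z`, where `p + q = b` and `q - p = e`. -/
noncomputable def hodgeNumber (D : WeightData W.K Γ) (Z : GVar W Γ) (b e : ℕ) : ℕ :=
  Module.finrank W.K (hodgePart D Z b e)

/-- The variety `X` has over the field `k` an endomorphism `σ` of order `N` on the cohomology with
the properties `IsCyclicAct`, and a zero-cycle of degree different from `0`. -/
structure IsCyclicCover (D : WeightData W.K Γ) (N a : ℕ) (c : Γ →* (ZMod N)ˣ) (X : GVar W Γ) :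
    Prop where
  galois : GaloisType D X
  point : ∃ z, X.X.IsCyc X.X.dim z ∧ X.X.V.degCycle z ≠ 0
  cover : ∃ (σ : X.X ⟶ X.X) (ζ : W.K),
    IsCyclicAct D N a c (W.gr X.X) X.X.dim (algSpan W X.X) X.act (W.map σ) ζ

/-- The varieties `X i` are cyclic coverings of prime degrees `N i`, with independent characters
`c i`. -/
structure IsCoverFamily (D : WeightData W.K Γ) {ι : Type} (N a : ι → ℕ) (X : ι → GVar W Γ) :
    Prop where
  prime : ∀ i, (N i).Prime
  two_le : ∀ i, 2 ≤ a i
  cover : ∃ c : ∀ i, Γ →* (ZMod (N i))ˣ, IsIndependent c ∧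
    ∀ i, IsCyclicCover D (N i) (a i) (c i) (X i)

/-- `Y'` is the product of `X` and `Y`, with an action on the cohomology which is compatible with the
projections. -/
inductive IsProd (X Y : GVar W Γ) : GVar W Γ → Prop
  | mk (υ : Acts W Γ (X.X.prod Y.X)) : Compat (fst X.X Y.X) X.act υ →
      Compat (snd X.X Y.X) Y.act υ → IsProd X Y ⟨X.X.prod Y.X, υ⟩

/-- The varieties `Y = X_1 × (X_2 × ( ⋯ × Z))`, where the `X_i` are different members of the family
`X`, with actions on the cohomology compatible with the projections; `S` is the set of the indices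
which are used. -/
inductive Tower {ι : Type} (X : ι → GVar W Γ) (Z : GVar W Γ) : Set ι → GVar W Γ → Prop
  | base : Tower X Z ∅ Z
  | step {S : Set ι} {Y Y' : GVar W Γ} (i : ι) : Tower X Z S Y → i ∉ S → IsProd (X i) Y Y' →
      Tower X Z (insert i S) Y'

/-- A Tate class of degree `2 j`: an element `c` of `H^(2j)(Y)` with `g c = χ(g) ^ j c` for all `g` in
a subgroup of finite index. -/
def IsTateClass (D : WeightData W.K Γ) (Y : GVar W Γ) (j : ℕ) (c : W.H Y.X) : Prop :=
  IsTateElt D.χ (W.gr Y.X) Y.act j c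

/-- The external products `a_1 × (a_2 × ( ⋯ × z))` of algebraic classes `a_i` of members of the family
`X` and of Tate classes `z` of `Z`. -/
inductive IsExtProduct (D : WeightData W.K Γ) {ι : Type} (X : ι → GVar W Γ) (Z : GVar W Γ) :
    (Y : GVar W Γ) → W.H Y.X → Prop
  | base (j : ℕ) (z : W.H Z.X) : IsTateClass D Z j z → IsExtProduct D X Z Z z
  | step {Y : GVar W Γ} {y : W.H Y.X} (i : ι) (υ : Acts W Γ ((X i).X.prod Y.X)) (j : ℕ)
      (a : W.H (X i).X) : IsExtProduct D X Z Y y → a ∈ algClasses W (X i).X j →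
      IsExtProduct D X Z ⟨(X i).X.prod Y.X, υ⟩ (ext W a y)

end Pool.Agent.U231.LP
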