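import Pool.Agent.U231.LP.Wt
import Pool.Agent.U231.LP.Cyc

/-!
# Cyclic coverings of large prime degree: eigenfunctionals
-/

set_option autoImplicit false

open CategoryTheory AlgebraicGeometry Finset

universe u

namespace Pool.Agent.U231.LP

open Pool.Agent.Y95.ZT.S Pool.Agent.H914 Pool.Agent.H914.VarClass Pool.Agent.H914.VarClass.Obj
  Pool.Agent.H914.WeilCohomology Pool.Agent.H281R3.HT Pool.Agent.TH125.Gal

variable {k : Type u} [Field k] {𝒱 : VarClass k} {ops : CycleOps 𝒱}
  {W : WeilCohomology.{u, 0} ops} {Γ : Type} [Group Γ]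

/-- the data of a cyclic covering -/
structure CData (D : WeightData W.K Γ) (N A : ℕ) (c : Γ →* (ZMod N)ˣ) (X : GVar W Γ) where
  σ : X.X ⟶ X.X
  ζ : W.K
  root : IsPrimitiveRoot ζ N
  order : ∀ x, (W.map σ)^[N] x = x
  semi : ∀ g x, X.act g (W.map σ x) = (W.map σ)^[(c g : ZMod N).val] (X.act g x)
  inv : ∀ x, W.map σ x = x → x ∈ algSpan W X.X
  low : ∀ j, 0 < j → A * j < N → ∀ x, W.map σ x = ζ ^ j • x →
    x ∈ W.gr X.X X.X.dim ∧ weight D X x = (X.X.dim : W.K) • x
  high : ∀ j, 0 < j → A * j < N → ∀ x, W.map σ x = ζ ^ (N - j) • x →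
    x ∈ W.gr X.X X.X.dim ∧ weight D X x = 0
  prime : N.Prime
  galois : GaloisType D X

namespace CData

variable {D : WeightData W.K Γ} {N A : ℕ} {c : Γ →* (ZMod N)ˣ} {X : GVar W Γ}

/-- the covering transformation on the cohomology -/
def S (C : CData D N A c X) : Module.End W.K (W.H X.X) := (W.map C.σ).toLinearMap

theorem S_pow (C : CData D N A c X) : C.S ^ N = 1 := by
  apply LinearMap.ext
  intro x
  rw [Module.End.pow_apply]
  exact C.order x

theorem semi' (C : CData D N A c X) (g : Γ) (x : W.H X.X) :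
    X.act g (C.S x) = (C.S ^ (c g : ZMod N).val) (X.act g x) := by
  rw [Module.End.pow_apply]
  exact C.semi g x

/-- the covering transformation commutes with the weight operator -/
theorem weight_comm (C : CData D N A c X) : C.S * weight D X = weight D X * C.S := by
  have : NeZero N := ⟨C.prime.ne_zero⟩
  have : Fact (1 < N) := ⟨C.prime.one_lt⟩
  apply LinearMap.ext
  intro x
  refine pot_comm D (M := rep X) (M' := rep X) C.S (Δ := c.ker) inferInstance (fun g hg x => ?_) x
  have h1 := C.semi' g x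
  rw [MonoidHom.mem_ker.1 hg, Units.val_one, ZMod.val_one, pow_one] at h1
  exact h1.symm

theorem proj_comm (C : CData D N A c X) (i : ℕ) (x : W.H X.X) :
    proj (W.isInternal X.X) i (C.S x) = C.S (proj (W.isInternal X.X) i x) := by
  refine gr_induction (W.isInternal X.X) (p := fun x => proj (W.isInternal X.X) i (C.S x) =
    C.S (proj (W.isInternal X.X) i x)) ?_ ?_ x
  · intro l y hy
    have h1 : C.S y ∈ W.gr X.X l := W.map_mem C.σ hy
    by_cases h : l = i
    · subst h
      rw [proj_same _ hy, proj_same _ h1]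
    · rw [proj_ne _ hy h, proj_ne _ h1 h, map_zero]
  · intro y z hy hz
    rw [map_add, map_add, map_add, map_add, hy, hz]

/-- a homogeneous eigenfunctional of degree `d` for the character `t` -/
def IsFn (C : CData D N A c X) (t : ZMod N) (d : ℕ) (f : W.H X.X →ₗ[W.K] W.K) : Prop :=
  (∀ x, f (C.S x) = C.ζ ^ t.val * f x) ∧ ∀ i, i ≠ d → ∀ x ∈ W.gr X.X i, f x = 0

/-- all eigenfunctionals are eigenfunctionals of the weight operator with the eigenvalue `lam` -/
def HasW (C : CData D N A c X) (t : ZMod N) (d : ℕ) (lam : W.K) : Prop :=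
  ∀ f, C.IsFn t d f → ∀ x, f (weight D X x) = lam * f x

theorem weight_gr (C : CData D N A c X) {i : ℕ} {x : W.H X.X} (hx : x ∈ W.gr X.X i) :
    weight D X x ∈ W.gr X.X i := by
  have h1 : ∀ g x, proj (W.isInternal X.X) i (X.act g x) =
      X.act g (proj (W.isInternal X.X) i x) := by
    intro g x
    refine gr_induction (W.isInternal X.X) (p := fun x => proj (W.isInternal X.X) i (X.act g x) =
      X.act g (proj (W.isInternal X.X) i x)) ?_ ?_ x
    · intro l y hy
      have h1 : X.act g y ∈ W.gr X.X l := C.galois.gr_mem g l y hy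
      by_cases h : l = i
      · subst h
        rw [proj_same _ hy, proj_same _ h1]
      · rw [proj_ne _ hy h, proj_ne _ h1 h, map_zero]
    · intro y z hy hz
      rw [map_add, map_add, map_add, map_add, hy, hz]
  have h2 := pot_comm D (M := rep X) (M' := rep X) (proj (W.isInternal X.X) i) (Δ := ⊤)
    inferInstance (fun g _ x => h1 g x) x
  change proj (W.isInternal X.X) i (weight D X x) =
    weight D X (proj (W.isInternal X.X) i x) at h2
  rw [proj_same _ hx] at h2
  rw [← h2]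
  exact proj_mem _ _ _

theorem isFn_weight (C : CData D N A c X) {t : ZMod N} {d : ℕ} {f : W.H X.X →ₗ[W.K] W.K}
    (hf : C.IsFn t d f) : C.IsFn t d (f ∘ₗ weight D X) := by
  refine ⟨fun x => ?_, fun i hi x hx => hf.2 i hi _ (C.weight_gr hx)⟩
  have h1 : C.S (weight D X x) = weight D X (C.S x) :=
    congrArg (fun F : Module.End W.K (W.H X.X) => F x) C.weight_comm
  change f (weight D X (C.S x)) = C.ζ ^ t.val * f (weight D X x)
  rw [← h1, hf.1]

theorem ζ_ne (C : CData D N A c X) : C.ζ ≠ 0 := C.root.ne_zero C.prime.ne_zero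

theorem isFn_act (C : CData D N A c X) {t : ZMod N} {d : ℕ} {f : W.H X.X →ₗ[W.K] W.K}
    (hf : C.IsFn t d f) (g : Γ) : C.IsFn ((c g : ZMod N) * t) d (f ∘ₗ (X.act g).toLinearMap) := by
  have : NeZero N := ⟨C.prime.ne_zero⟩
  refine ⟨fun x => ?_, fun i hi x hx => hf.2 i hi _ (C.galois.gr_mem g i x hx)⟩
  have h1 : ∀ m y, f ((C.S ^ m) y) = (C.ζ ^ t.val) ^ m * f y := by
    intro m y
    induction m with
    | zero => simp
    | succ m ih => rw [pow_succ', Module.End.mul_apply, hf.1, ih, pow_succ']; ring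
  change f (X.act g (C.S x)) = C.ζ ^ ((c g : ZMod N) * t).val * f (X.act g x)
  rw [C.semi' g x, h1, ← pow_mul, ZMod.val_mul, ← pow_eq_pow_mod _ C.root.pow_eq_one, mul_comm t.val]

theorem hasW_zero (C : CData D N A c X) (hD : IsNormalized D) (d : ℕ) :
    C.HasW 0 d ((d : W.K) / 2) := by
  intro f hf x
  have hN := C.prime.pos
  have : NeZero N := ⟨C.prime.ne_zero⟩
  have h0 : ∀ y, f (C.S y) = C.ζ ^ 0 * f y := by
    intro y
    rw [hf.1, ZMod.val_zero]
  have h1 : ∀ y ∈ algSpan W X.X, f (weight D X y) = (d : W.K) / 2 * f y := by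
    intro y hy
    induction hy using Submodule.span_induction with
    | mem y hy =>
      obtain ⟨j, hj⟩ := Set.mem_iUnion.1 hy
      rw [weight_tate D X j (C.galois.cl_fix j y hj), map_smul, smul_eq_mul, theta_eq D hD]
      by_cases h : 2 * j = d
      · subst h
        congr 1
        push_cast
        field_simp
      · rw [hf.2 (2 * j) h y (alg_gr hj), mul_zero, mul_zero]
    | zero => rw [map_zero, map_zero, mul_zero]
    | add y z _ _ hy hz => rw [map_add, map_add, hy, hz, map_add, mul_add]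
    | smul q y _ hy => rw [map_smul, map_smul, hy, map_smul, smul_eq_mul, smul_eq_mul]; ring
  have h2 : ep C.S N C.ζ 0 x ∈ algSpan W X.X := by
    apply C.inv
    have h3 := congrArg (fun F : Module.End W.K (W.H X.X) => F x)
      (mul_ep C.S_pow C.root.pow_eq_one hN 0)
    change C.S (ep C.S N C.ζ 0 x) = C.ζ ^ 0 • ep C.S N C.ζ 0 x at h3
    rw [pow_zero, one_smul] at h3
    exact h3
  have h3 : ep C.S N C.ζ 0 (weight D X x) = weight D X (ep C.S N C.ζ 0 x) :=
    congrArg (fun F : Module.End W.K (W.H X.X) => F x) (ep_comm C.weight_comm 0)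
  rw [← comp_ep C.ζ_ne hN h0, h3, h1 _ h2, comp_ep C.ζ_ne hN h0]

theorem hasW_of (C : CData D N A c X) {t : ZMod N} {lam : W.K}
    (h : ∀ x, W.map C.σ x = C.ζ ^ t.val • x → x ∈ W.gr X.X X.X.dim ∧ weight D X x = lam • x)
    (d : ℕ) : C.HasW t d lam ∧ (d ≠ X.X.dim → ∀ mu, C.HasW t d mu) := by
  have hN := C.prime.pos
  have h4 : ∀ x, W.map C.σ (ep C.S N C.ζ t.val x) = C.ζ ^ t.val • ep C.S N C.ζ t.val x := fun x =>
    congrArg (fun F : Module.End W.K (W.H X.X) => F x)
      (mul_ep C.S_pow C.root.pow_eq_one hN t.val)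
  refine ⟨fun f hf x => ?_, fun hd mu f hf x => ?_⟩
  · have h3 : ep C.S N C.ζ t.val (weight D X x) = weight D X (ep C.S N C.ζ t.val x) :=
      congrArg (fun F : Module.End W.K (W.H X.X) => F x) (ep_comm C.weight_comm t.val)
    rw [← comp_ep C.ζ_ne hN hf.1, h3, (h _ (h4 x)).2, map_smul, comp_ep C.ζ_ne hN hf.1, smul_eq_mul]
  · have h5 : ∀ x, f x = 0 := fun x => by
      rw [← comp_ep C.ζ_ne hN hf.1]
      exact hf.2 _ (Ne.symm hd) _ (h _ (h4 x)).1
    rw [h5, h5, mul_zero]

theorem hasW_low (C : CData D N A c X) (hA : 0 < A) {r : ℤ} (h0 : 0 < r) (h1 : A * r < N)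
    (d : ℕ) : C.HasW (r : ZMod N) d (X.X.dim : W.K) ∧
      (d ≠ X.X.dim → ∀ mu, C.HasW (r : ZMod N) d mu) := by
  have : NeZero N := ⟨C.prime.ne_zero⟩
  obtain ⟨j, rfl⟩ : ∃ j : ℕ, r = j := ⟨r.toNat, by omega⟩
  have hj0 : 0 < j := by exact_mod_cast h0
  have hj1 : A * j < N := by exact_mod_cast h1
  have hjN : j < N := lt_of_le_of_lt (Nat.le_mul_of_pos_left j hA) hj1
  have h2 : ((j : ℤ) : ZMod N).val = j := by
    rw [Int.cast_natCast, ZMod.val_natCast, Nat.mod_eq_of_lt hjN]
  apply C.hasW_of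
  intro x hx
  rw [h2] at hx
  exact C.low j hj0 hj1 x hx

theorem hasW_high (C : CData D N A c X) (hA : 0 < A) {r : ℤ} (h0 : r < 0)
    (h1 : -(N : ℤ) < A * r) (d : ℕ) : C.HasW (r : ZMod N) d 0 := by
  have : NeZero N := ⟨C.prime.ne_zero⟩
  obtain ⟨j, rfl⟩ : ∃ j : ℕ, r = -j := ⟨(-r).toNat, by omega⟩
  have hj0 : 0 < j := by omega
  have hj1 : A * j < N := by
    have : (A : ℤ) * j < N := by
      rw [mul_neg] at h1
      omega
    exact_mod_cast this
  have hjN : j < N := lt_of_le_of_lt (Nat.le_mul_of_pos_left j hA) hj1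
  have h2 : ((-(j : ℤ) : ℤ) : ZMod N).val = N - j := by
    have h3 : ((-(j : ℤ) : ℤ) : ZMod N) = ((N - j : ℕ) : ZMod N) := by
      rw [Nat.cast_sub hjN.le]
      simp
    rw [h3, ZMod.val_natCast, Nat.mod_eq_of_lt (by omega)]
  refine (C.hasW_of (t := ((-(j : ℤ) : ℤ) : ZMod N)) (lam := 0) (fun x hx => ?_) d).1
  rw [h2] at hx
  rw [zero_smul]
  exact C.high j hj0 hj1 x hx

/-- the standard eigenfunctionals -/
theorem isFn_ep (C : CData D N A c X) (F : W.H X.X →ₗ[W.K] W.K) (t : ZMod N) (d : ℕ) :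
    C.IsFn t d (F ∘ₗ ep C.S N C.ζ t.val ∘ₗ proj (W.isInternal X.X) d) := by
  constructor
  · intro x
    change F (ep C.S N C.ζ t.val (proj (W.isInternal X.X) d (C.S x))) =
      C.ζ ^ t.val * F (ep C.S N C.ζ t.val (proj (W.isInternal X.X) d x))
    rw [C.proj_comm]
    have h1 : ep C.S N C.ζ t.val (C.S (proj (W.isInternal X.X) d x)) =
        C.S (ep C.S N C.ζ t.val (proj (W.isInternal X.X) d x)) :=
      congrArg (fun G : Module.End W.K (W.H X.X) => G (proj (W.isInternal X.X) d x))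
        (ep_comm (t := C.S) rfl t.val)
    have h2 : C.S (ep C.S N C.ζ t.val (proj (W.isInternal X.X) d x)) =
        C.ζ ^ t.val • ep C.S N C.ζ t.val (proj (W.isInternal X.X) d x) :=
      congrArg (fun G : Module.End W.K (W.H X.X) => G (proj (W.isInternal X.X) d x))
        (mul_ep C.S_pow C.root.pow_eq_one C.prime.pos t.val)
    rw [h1, h2, map_smul, smul_eq_mul]
  · intro i hi x hx
    change F (ep C.S N C.ζ t.val (proj (W.isInternal X.X) d x)) = 0
    rw [proj_ne _ hx hi, map_zero, map_zero]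

/-- every functional is a sum of eigenfunctionals -/
theorem fun_eq_sum (C : CData D N A c X) (F : W.H X.X →ₗ[W.K] W.K) :
    F = ∑ j ∈ range N, ∑ d ∈ range (2 * X.X.dim + 1),
      F ∘ₗ ep C.S N C.ζ j ∘ₗ proj (W.isInternal X.X) d := by
  have h1 := sum_ep (s := C.S) C.root C.prime.pos
  have h2 := sum_proj (W.isInternal X.X) (N := 2 * X.X.dim + 1)
    (fun i hi => W.gr_eq_bot X.X i (by omega))
  apply LinearMap.ext
  intro x
  rw [LinearMap.sum_apply]
  have h3 : ∀ j, (∑ d ∈ range (2 * X.X.dim + 1),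
      F ∘ₗ ep C.S N C.ζ j ∘ₗ proj (W.isInternal X.X) d) x = F (ep C.S N C.ζ j x) := by
    intro j
    rw [LinearMap.sum_apply]
    have h4 := congrArg (fun G : Module.End W.K (W.H X.X) => F (ep C.S N C.ζ j (G x))) h2
    simp only [LinearMap.sum_apply, Module.End.one_apply, map_sum] at h4
    exact h4
  rw [sum_congr rfl fun j _ => h3 j, ← map_sum, ← LinearMap.sum_apply, h1, Module.End.one_apply]

theorem ctr_sum {A' Z : 𝒱.Obj} {κ : Type*} (s : Finset κ) (F : κ → (W.H A' →ₗ[W.K] W.K))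
    (y : W.H (A'.prod Z)) : ctr (∑ i ∈ s, F i) y = ∑ i ∈ s, ctr (F i) y := by
  classical
  refine kun_ext (L := fun y => ctr (∑ i ∈ s, F i) y) (L' := fun y => ∑ i ∈ s, ctr (F i) y)
    (fun a b => map_add _ _ _) (fun a b => ?_) (fun a z => ?_) y
  · rw [← sum_add_distrib]
    exact sum_congr rfl fun i _ => map_add _ _ _
  · simp only [ctr_apply, LinearMap.sum_apply, sum_smul]

/-- the eigenfunctionals separate the elements -/
theorem eq_zero_of_ctr (C : CData D N A c X) {Z : 𝒱.Obj} {y : W.H (X.X.prod Z)}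
    (h : ∀ t d f, C.IsFn t d f → ctr f y = 0) : y = 0 := by
  have h1 : ∀ F : W.H X.X →ₗ[W.K] W.K, ctr F y = 0 := by
    intro F
    rw [C.fun_eq_sum F, ctr_sum]
    refine sum_eq_zero fun j hj => ?_
    rw [ctr_sum]
    refine sum_eq_zero fun d _ => ?_
    have h2 := C.isFn_ep F (j : ZMod N) d
    rw [ZMod.val_natCast, Nat.mod_eq_of_lt (mem_range.1 hj)] at h2
    exact h _ _ _ h2
  rw [expand (Module.finBasis W.K (W.H X.X)) y]
  refine sum_eq_zero fun r _ => ?_
  rw [h1, map_zero, mul_zero]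

end CData

end Pool.Agent.U231.LP
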